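import Pool.Agent.Lib.MP_d0bb7d_co.Defs

/-!
# Counting words
-/

set_option autoImplicit false

namespace PoolChi
open Finset

theorem NV_mono (n : ℕ) {s t : ℝ} (h : s ≤ t) : NV n s ≤ NV n t := by
  unfold NV
  apply Finset.card_le_card
  intro v hv
  rw [Finset.mem_filter] at hv ⊢
  exact ⟨hv.1, hv.2.trans h⟩

theorem NV_mul (m n : ℕ) (s t : ℝ) : NV m s * NV n t ≤ NV (m + n) (s + t) := by
  unfold NV
  rw [← Finset.card_product]
  apply Finset.card_le_card_of_injOn (fun p => Fin.append p.1 p.2)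
  · intro p hp
    rw [Finset.coe_product, Set.mem_prod] at hp
    obtain ⟨h1, h2⟩ := hp
    rw [Finset.coe_filter, Set.mem_ofPred_eq] at h1 h2
    rw [Finset.coe_filter, Set.mem_ofPred_eq]
    refine ⟨Finset.mem_univ _, ?_⟩
    rw [Fin.sum_univ_add]
    simp only [Fin.append_left, Fin.append_right]
    push_cast
    have h1' := h1.2
    have h2' := h2.2
    push_cast at h1' h2'
    linarith
  · intro p _ p' _ h
    have h1 : ∀ i, p.1 i = p'.1 i := fun i => by
      have := congrFun h (Fin.castAdd n i)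
      simpa using this
    have h2 : ∀ i, p.2 i = p'.2 i := fun i => by
      have := congrFun h (Fin.natAdd m i)
      simpa using this
    exact Prod.ext (funext h1) (funext h2)

/-- Chernoff upper bound. -/
theorem NA_upper (n m : ℕ) (z : ℝ) (hz0 : 0 < z) (hz1 : z ≤ 1) :
    z ^ m * (NA n m : ℝ) ≤ fD z ^ n := by
  have h1 : fD z ^ n = ∑ α : Fin n → Fin 7, z ^ (∑ i, wt (α i)) := by
    unfold fD
    rw [Fintype.sum_pow]
    refine Finset.sum_congr rfl fun α _ => ?_
    rw [Finset.prod_pow_eq_pow_sum]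
  rw [h1]
  unfold NA
  calc z ^ m * (((univ.filter fun α : Fin n → Fin 7 => ∑ i, wt (α i) ≤ m).card : ℕ) : ℝ)
      = ∑ α ∈ univ.filter (fun α : Fin n → Fin 7 => ∑ i, wt (α i) ≤ m), z ^ m := by
        rw [Finset.sum_const, nsmul_eq_mul, mul_comm]
    _ ≤ ∑ α ∈ univ.filter (fun α : Fin n → Fin 7 => ∑ i, wt (α i) ≤ m),
          z ^ (∑ i, wt (α i)) := by
        apply Finset.sum_le_sum
        intro α hα
        rw [Finset.mem_filter] at hα
        exact pow_le_pow_of_le_one hz0.le hz1 hα.2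
    _ ≤ ∑ α : Fin n → Fin 7, z ^ (∑ i, wt (α i)) :=
        Finset.sum_le_sum_of_subset_of_nonneg (Finset.filter_subset _ _)
          (fun _ _ _ => by positivity)

/-! ### Lower bound -/

theorem cost_le (b : Fin 7) : cost b ≤ 21 := by
  fin_cases b <;> simp [cost]

theorem fV_pos {y : ℝ} (hy0 : 0 < y) : 0 < fV y :=
  Finset.sum_pos (fun b _ => by positivity) ⟨0, Finset.mem_univ _⟩

theorem mu_nonneg {y : ℝ} (hy0 : 0 < y) : 0 ≤ mu y :=
  div_nonneg (Finset.sum_nonneg fun b _ => by positivity) (fV_pos hy0).le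

theorem mu_le {y : ℝ} (hy0 : 0 < y) : mu y ≤ 21 := by
  unfold mu
  rw [div_le_iff₀ (fV_pos hy0), fV, Finset.mul_sum]
  apply Finset.sum_le_sum
  intro b _
  have h1 : (cost b : ℝ) ≤ 21 := by exact_mod_cast cost_le b
  exact mul_le_mul_of_nonneg_right h1 (by positivity)

/-- Exponential moment of a bounded centred function. -/
theorem exp_moment {p g : Fin 7 → ℝ} (hp : ∀ b, 0 ≤ p b) (hp1 : ∑ b, p b = 1)
    (hg : ∀ b, |g b| ≤ 21) (hpg : ∑ b, p b * g b = 0) {t : ℝ} (ht : |t| * 21 ≤ 1) :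
    ∑ b, p b * Real.exp (t * g b) ≤ Real.exp (441 * t ^ 2) := by
  have h1 : ∀ b, Real.exp (t * g b) ≤ 1 + t * g b + 441 * t ^ 2 := by
    intro b
    have h2 : |t * g b| ≤ 1 := by
      rw [abs_mul]
      calc |t| * |g b| ≤ |t| * 21 := mul_le_mul_of_nonneg_left (hg b) (abs_nonneg t)
        _ ≤ 1 := ht
    have h3 := Real.abs_exp_sub_one_sub_id_le h2
    have h4 := (abs_le.mp h3).2
    have h5 : (t * g b) ^ 2 ≤ 441 * t ^ 2 := by
      rw [mul_pow]
      have h6 : g b ^ 2 ≤ 441 := by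
        have := sq_le_sq' (abs_le.mp (hg b)).1 (abs_le.mp (hg b)).2
        linarith
      nlinarith [sq_nonneg t]
    linarith
  calc ∑ b, p b * Real.exp (t * g b) ≤ ∑ b, p b * (1 + t * g b + 441 * t ^ 2) :=
        Finset.sum_le_sum fun b _ => mul_le_mul_of_nonneg_left (h1 b) (hp b)
    _ = ∑ b, (p b * (1 + 441 * t ^ 2) + t * (p b * g b)) :=
        Finset.sum_congr rfl fun b _ => by ring
    _ = 1 + 441 * t ^ 2 := by
        rw [Finset.sum_add_distrib, ← Finset.sum_mul, ← Finset.mul_sum, hp1, hpg]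
        ring
    _ ≤ Real.exp (441 * t ^ 2) := by
        have := Real.add_one_le_exp (441 * t ^ 2)
        linarith

/-- One sided tail bound. -/
theorem tail {p g : Fin 7 → ℝ} (hp : ∀ b, 0 ≤ p b) (hp1 : ∑ b, p b = 1)
    (hg : ∀ b, |g b| ≤ 21) (hpg : ∑ b, p b * g b = 0) {t δ : ℝ} (ht0 : 0 < t)
    (ht : t * 21 ≤ 1) (htδ : 882 * t ≤ δ) (n : ℕ) :
    ∑ v ∈ univ.filter (fun v : Fin n → Fin 7 => δ * n < ∑ i, g (v i)), ∏ i, p (v i) ≤
      Real.exp (-(n * (t * δ / 2))) := by
  have h0 : ∀ v : Fin n → Fin 7, 0 ≤ ∏ i, p (v i) := fun v => Finset.prod_nonneg fun i _ => hp _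
  calc ∑ v ∈ univ.filter (fun v : Fin n → Fin 7 => δ * n < ∑ i, g (v i)), ∏ i, p (v i)
      ≤ ∑ v ∈ univ.filter (fun v : Fin n → Fin 7 => δ * n < ∑ i, g (v i)),
          (∏ i, p (v i)) * Real.exp (t * (∑ i, g (v i)) - t * (δ * n)) := by
        apply Finset.sum_le_sum
        intro v hv
        rw [Finset.mem_filter] at hv
        have h1 : 1 ≤ Real.exp (t * (∑ i, g (v i)) - t * (δ * n)) := by
          apply Real.one_le_exp
          have := mul_le_mul_of_nonneg_left hv.2.le ht0.le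
          linarith
        calc ∏ i, p (v i) = (∏ i, p (v i)) * 1 := (mul_one _).symm
          _ ≤ _ := mul_le_mul_of_nonneg_left h1 (h0 v)
    _ ≤ ∑ v : Fin n → Fin 7,
          (∏ i, p (v i)) * Real.exp (t * (∑ i, g (v i)) - t * (δ * n)) :=
        Finset.sum_le_sum_of_subset_of_nonneg (Finset.filter_subset _ _)
          (fun v _ _ => mul_nonneg (h0 v) (Real.exp_pos _).le)
    _ = (∑ v : Fin n → Fin 7, ∏ i, (p (v i) * Real.exp (t * g (v i)))) *
          Real.exp (-(t * (δ * n))) := by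
        rw [Finset.sum_mul]
        refine Finset.sum_congr rfl fun v _ => ?_
        rw [Finset.prod_mul_distrib, ← Real.exp_sum, ← Finset.mul_sum, sub_eq_add_neg,
          Real.exp_add]
        ring
    _ = (∑ b, p b * Real.exp (t * g b)) ^ n * Real.exp (-(t * (δ * n))) := by
        rw [Fintype.sum_pow]
    _ ≤ (Real.exp (441 * t ^ 2)) ^ n * Real.exp (-(t * (δ * n))) := by
        apply mul_le_mul_of_nonneg_right _ (Real.exp_pos _).le
        apply pow_le_pow_left₀
        · exact Finset.sum_nonneg fun b _ => mul_nonneg (hp b) (Real.exp_pos _).le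
        · apply exp_moment hp hp1 hg hpg
          rw [abs_of_pos ht0]
          exact ht
    _ = Real.exp (n * (441 * t ^ 2 - t * δ)) := by
        rw [← Real.exp_nat_mul, ← Real.exp_add]
        congr 1
        ring
    _ ≤ Real.exp (-(n * (t * δ / 2))) := by
        apply Real.exp_le_exp.mpr
        have h2 : 441 * t ^ 2 - t * δ ≤ -(t * δ / 2) := by nlinarith
        have h3 : (0 : ℝ) ≤ n := Nat.cast_nonneg n
        calc n * (441 * t ^ 2 - t * δ) ≤ n * (-(t * δ / 2)) := mul_le_mul_of_nonneg_left h2 h3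
          _ = _ := by ring

/-- The main count for large `n`. -/
theorem NV_lower_large {y δ : ℝ} (hy0 : 0 < y) (hy1 : y < 1) (hδ : 0 < δ) :
    ∃ n0 : ℕ, ∀ n : ℕ, n0 ≤ n →
      (1 / 2) * Real.exp (n * (Real.log (fV y) - (mu y - δ) * Real.log y)) ≤
        NV n ((mu y + δ) * n) := by
  have hF := fV_pos hy0
  set p : Fin 7 → ℝ := fun b => y ^ cost b / fV y with hpdef
  set g : Fin 7 → ℝ := fun b => (cost b : ℝ) - mu y with hgdef
  have hp : ∀ b, 0 ≤ p b := fun b => by rw [hpdef]; positivity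
  have hp1 : ∑ b, p b = 1 := by
    rw [hpdef]
    simp only
    rw [← Finset.sum_div]
    exact div_self hF.ne'
  have hg : ∀ b, |g b| ≤ 21 := by
    intro b
    have h1 : (cost b : ℝ) ≤ 21 := by exact_mod_cast cost_le b
    have h2 : (0 : ℝ) ≤ cost b := Nat.cast_nonneg _
    have h3 := mu_nonneg hy0
    have h4 := mu_le hy0
    rw [hgdef, abs_le]
    constructor <;> simp only <;> linarith
  have hpg : ∑ b, p b * g b = 0 := by
    rw [hpdef, hgdef]
    simp only
    have h1 : ∀ b : Fin 7, y ^ cost b / fV y * ((cost b : ℝ) - mu y) =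
        (cost b : ℝ) * y ^ cost b / fV y - y ^ cost b / fV y * mu y := fun b => by ring
    rw [Finset.sum_congr rfl fun b _ => h1 b, Finset.sum_sub_distrib, ← Finset.sum_div,
      ← Finset.sum_mul, ← Finset.sum_div]
    have h2 : (∑ b : Fin 7, y ^ cost b) / fV y = 1 := div_self hF.ne'
    rw [h2, one_mul]
    exact sub_self _
  have hg' : ∀ b, |(-g b)| ≤ 21 := fun b => by rw [abs_neg]; exact hg b
  have hpg' : ∑ b, p b * (-g b) = 0 := by
    have : ∑ b, p b * (-g b) = -∑ b, p b * g b := by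
      rw [← Finset.sum_neg_distrib]
      exact Finset.sum_congr rfl fun b _ => by ring
    rw [this, hpg, neg_zero]
  set t : ℝ := min (1 / 21) (δ / 882) with ht
  have ht0 : 0 < t := lt_min (by norm_num) (by positivity)
  have ht1 : t * 21 ≤ 1 := by
    have : t ≤ 1 / 21 := min_le_left _ _
    linarith
  have ht2 : 882 * t ≤ δ := by
    have : t ≤ δ / 882 := min_le_right _ _
    linarith
  have hrate : 0 < t * δ / 2 := by positivity
  obtain ⟨n0, hn0⟩ := exists_nat_gt (Real.log 4 / (t * δ / 2))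
  refine ⟨n0, fun n hn => ?_⟩
  have hnn : (n0 : ℝ) ≤ n := by exact_mod_cast hn
  have hsmall : Real.exp (-(n * (t * δ / 2))) ≤ 1 / 4 := by
    have h1 : Real.log 4 ≤ n * (t * δ / 2) := by
      rw [div_lt_iff₀ hrate] at hn0
      have := mul_le_mul_of_nonneg_right hnn hrate.le
      linarith
    have h2 : Real.exp (-(n * (t * δ / 2))) ≤ Real.exp (-Real.log 4) :=
      Real.exp_le_exp.mpr (by linarith)
    rw [Real.exp_neg (Real.log 4), Real.exp_log (by norm_num)] at h2
    linarith
  have tl1 := (tail hp hp1 hg hpg ht0 ht1 ht2 n).trans hsmall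
  have tl2 := (tail hp hp1 hg' hpg' ht0 ht1 ht2 n).trans hsmall
  have htot : ∑ v : Fin n → Fin 7, ∏ i, p (v i) = 1 := by
    rw [← Fintype.sum_pow, hp1, one_pow]
  have h0 : ∀ v : Fin n → Fin 7, 0 ≤ ∏ i, p (v i) := fun v => Finset.prod_nonneg fun i _ => hp _
  set good := univ.filter (fun v : Fin n → Fin 7 => |∑ i, g (v i)| ≤ δ * n) with hgood
  have hsplit : (1 : ℝ) ≤ ∑ v ∈ good, ∏ i, p (v i) + (1 / 4 + 1 / 4) := by
    have h1 : (univ : Finset (Fin n → Fin 7)) ⊆ good ∪
        (univ.filter (fun v : Fin n → Fin 7 => δ * n < ∑ i, g (v i)) ∪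
          univ.filter (fun v : Fin n → Fin 7 => δ * n < ∑ i, -g (v i))) := by
      intro v _
      rw [Finset.mem_union, Finset.mem_union, hgood, Finset.mem_filter, Finset.mem_filter,
        Finset.mem_filter]
      by_cases hv : |∑ i, g (v i)| ≤ δ * n
      · exact Or.inl ⟨Finset.mem_univ _, hv⟩
      · right
        rw [not_le, lt_abs] at hv
        rcases hv with hv | hv
        · exact Or.inl ⟨Finset.mem_univ _, hv⟩
        · refine Or.inr ⟨Finset.mem_univ _, ?_⟩
          rwa [Finset.sum_neg_distrib]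
    calc (1 : ℝ) = ∑ v : Fin n → Fin 7, ∏ i, p (v i) := htot.symm
      _ ≤ ∑ v ∈ good ∪
        (univ.filter (fun v : Fin n → Fin 7 => δ * n < ∑ i, g (v i)) ∪
          univ.filter (fun v : Fin n → Fin 7 => δ * n < ∑ i, -g (v i))), ∏ i, p (v i) :=
          Finset.sum_le_sum_of_subset_of_nonneg h1 (fun v _ _ => h0 v)
      _ ≤ ∑ v ∈ good, ∏ i, p (v i) +
          (∑ v ∈ univ.filter (fun v : Fin n → Fin 7 => δ * n < ∑ i, g (v i)), ∏ i, p (v i) +
            ∑ v ∈ univ.filter (fun v : Fin n → Fin 7 => δ * n < ∑ i, -g (v i)),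
              ∏ i, p (v i)) := by
          have hu : ∀ A B : Finset (Fin n → Fin 7), ∑ v ∈ A ∪ B, ∏ i, p (v i) ≤
              ∑ v ∈ A, ∏ i, p (v i) + ∑ v ∈ B, ∏ i, p (v i) := by
            intro A B
            rw [← Finset.sum_union_inter]
            have : 0 ≤ ∑ v ∈ A ∩ B, ∏ i, p (v i) := Finset.sum_nonneg fun v _ => h0 v
            linarith
          exact (hu _ _).trans (add_le_add_right (hu _ _) _)
      _ ≤ _ := by linarith
  have hterm : ∀ v ∈ good, ∏ i, p (v i) ≤
      Real.exp (n * ((mu y - δ) * Real.log y)) / fV y ^ n := by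
    intro v hv
    rw [hgood, Finset.mem_filter] at hv
    have h1 : ∏ i, p (v i) = y ^ (∑ i, cost (v i)) / fV y ^ n := by
      rw [hpdef]
      simp only
      rw [Finset.prod_div_distrib, Finset.prod_pow_eq_pow_sum]
      simp
    rw [h1]
    apply div_le_div_of_nonneg_right _ (by positivity)
    have h2 : ∑ i, g (v i) = ((∑ i, cost (v i) : ℕ) : ℝ) - n * mu y := by
      rw [hgdef]
      simp only
      rw [Finset.sum_sub_distrib]
      simp
    have h3 := (abs_le.mp hv.2).1
    rw [h2] at h3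
    have h4 : y ^ (∑ i, cost (v i)) = Real.exp (((∑ i, cost (v i) : ℕ) : ℝ) * Real.log y) := by
      rw [mul_comm, Real.exp_mul, Real.exp_log hy0, Real.rpow_natCast]
    rw [h4]
    apply Real.exp_le_exp.mpr
    have h5 : Real.log y < 0 := Real.log_neg hy0 hy1
    have h6 : n * (mu y - δ) ≤ ((∑ i, cost (v i) : ℕ) : ℝ) := by linarith
    have h7 := mul_le_mul_of_nonpos_right h6 h5.le
    linarith
  have hcard : ∑ v ∈ good, ∏ i, p (v i) ≤
      good.card * (Real.exp (n * ((mu y - δ) * Real.log y)) / fV y ^ n) := by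
    have := Finset.sum_le_card_nsmul good _ _ hterm
    rwa [nsmul_eq_mul] at this
  have hgoodle : (good.card : ℝ) ≤ NV n ((mu y + δ) * n) := by
    have : good.card ≤ NV n ((mu y + δ) * n) := by
      unfold NV
      apply Finset.card_le_card
      intro v hv
      rw [hgood, Finset.mem_filter] at hv
      rw [Finset.mem_filter]
      refine ⟨Finset.mem_univ _, ?_⟩
      have h2 : ∑ i, g (v i) = ((∑ i, cost (v i) : ℕ) : ℝ) - n * mu y := by
        rw [hgdef]
        simp only
        rw [Finset.sum_sub_distrib]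
        simp
      have h3 := (abs_le.mp hv.2).2
      rw [h2] at h3
      linarith
    exact_mod_cast this
  have hE : 0 < Real.exp (n * ((mu y - δ) * Real.log y)) := Real.exp_pos _
  have hFn : 0 < fV y ^ n := by positivity
  have h8 : (1 : ℝ) / 2 ≤ good.card * (Real.exp (n * ((mu y - δ) * Real.log y)) / fV y ^ n) := by
    linarith
  have h9 : Real.exp (n * (Real.log (fV y) - (mu y - δ) * Real.log y)) *
      (Real.exp (n * ((mu y - δ) * Real.log y)) / fV y ^ n) = 1 := by
    rw [← mul_div_assoc, ← Real.exp_add]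
    have : (n : ℝ) * (Real.log (fV y) - (mu y - δ) * Real.log y) +
        n * ((mu y - δ) * Real.log y) = n * Real.log (fV y) := by ring
    rw [this, Real.exp_nat_mul, Real.exp_log hF]
    exact div_self hFn.ne'
  set X : ℝ := Real.exp (n * ((mu y - δ) * Real.log y)) / fV y ^ n with hX
  have hX0 : 0 < X := by rw [hX]; positivity
  have h10 : (1 / 2) * Real.exp (n * (Real.log (fV y) - (mu y - δ) * Real.log y)) ≤
      good.card := by
    rw [← mul_le_mul_iff_of_pos_right hX0]
    calc (1 / 2) * Real.exp (n * (Real.log (fV y) - (mu y - δ) * Real.log y)) * X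
        = (1 / 2) * (Real.exp (n * (Real.log (fV y) - (mu y - δ) * Real.log y)) * X) := by ring
      _ = 1 / 2 := by rw [h9]; norm_num
      _ ≤ good.card * X := h8
  exact h10.trans hgoodle

theorem one_le_NV {y ε : ℝ} (hy0 : 0 < y) (hε : 0 < ε) (n : ℕ) :
    (1 : ℝ) ≤ NV n ((mu y + ε) * n) := by
  have h1 : 1 ≤ NV n ((mu y + ε) * n) := by
    unfold NV
    apply Finset.card_pos.mpr
    refine ⟨fun _ => 3, ?_⟩
    rw [Finset.mem_filter]
    refine ⟨Finset.mem_univ _, ?_⟩
    have h2 : ∑ i : Fin n, cost ((fun _ => 3 : Fin n → Fin 7) i) = 0 :=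
      Finset.sum_eq_zero fun i _ => rfl
    rw [h2, Nat.cast_zero]
    have := mu_nonneg hy0
    positivity
  exact_mod_cast h1

/-- Large deviation lower bound for the number of words of budget about `mu y * n`. -/
theorem NV_lower (y : ℝ) (hy0 : 0 < y) (hy1 : y < 1) (ε : ℝ) (hε : 0 < ε) :
    ∃ c : ℝ, 0 < c ∧ ∀ n : ℕ,
      c * Real.exp (n * (Real.log (fV y) - mu y * Real.log y - ε)) ≤ NV n ((mu y + ε) * n) := by
  have hlog : Real.log y < 0 := Real.log_neg hy0 hy1
  set δ : ℝ := min ε (ε / (-Real.log y)) with hδdef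
  have hδ0 : 0 < δ := lt_min hε (div_pos hε (by linarith))
  have hδ1 : δ ≤ ε := min_le_left _ _
  have hδ2 : δ * (-Real.log y) ≤ ε := by
    have h1 : δ ≤ ε / (-Real.log y) := min_le_right _ _
    rwa [le_div_iff₀ (by linarith)] at h1
  obtain ⟨n0, hn0⟩ := NV_lower_large hy0 hy1 hδ0
  set A : ℝ := Real.log (fV y) - mu y * Real.log y - ε with hA
  refine ⟨min (1 / 2) (Real.exp (-(n0 * |A|))), lt_min (by norm_num) (Real.exp_pos _), ?_⟩
  intro n
  rcases le_or_gt n0 n with hn | hn
  · have h1 := hn0 n hn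
    have h2 : NV n ((mu y + δ) * n) ≤ NV n ((mu y + ε) * n) := by
      apply NV_mono
      apply mul_le_mul_of_nonneg_right _ (Nat.cast_nonneg n)
      linarith
    have h2' : (NV n ((mu y + δ) * n) : ℝ) ≤ NV n ((mu y + ε) * n) := by exact_mod_cast h2
    refine le_trans ?_ (h1.trans h2')
    apply mul_le_mul (min_le_left _ _) _ (Real.exp_pos _).le (by norm_num)
    apply Real.exp_le_exp.mpr
    apply mul_le_mul_of_nonneg_left _ (Nat.cast_nonneg n)
    rw [hA]
    nlinarith
  · have h1 := one_le_NV hy0 hε n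
    refine le_trans ?_ h1
    have h2 : Real.exp (n * A) ≤ Real.exp (n0 * |A|) := by
      apply Real.exp_le_exp.mpr
      have h3 : (n : ℝ) ≤ n0 := by exact_mod_cast hn.le
      calc (n : ℝ) * A ≤ n * |A| := mul_le_mul_of_nonneg_left (le_abs_self A) (Nat.cast_nonneg n)
        _ ≤ n0 * |A| := mul_le_mul_of_nonneg_right h3 (abs_nonneg A)
    calc min (1 / 2) (Real.exp (-(n0 * |A|))) * Real.exp (n * A)
        ≤ Real.exp (-(n0 * |A|)) * Real.exp (n0 * |A|) :=
          mul_le_mul (min_le_right _ _) h2 (Real.exp_pos _).le (Real.exp_pos _).le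
      _ = 1 := by rw [← Real.exp_add]; simp

end PoolChi
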