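import Pool.Agent.Lib.MP_d0bb7d_co.Defs

namespace PoolChi
open Finset

/-- The inequality to be checked at a node `y` with dual parameter `z = x^2`. -/
def Node (ρ y x : ℝ) : Prop :=
  Real.log ρ + Real.log (fD (x ^ 2)) < Real.log (fV y) + mu y * (Real.log x - Real.log y)

theorem fV_eq (y : ℝ) :
    fV y = y ^ 21 + y ^ 10 + y ^ 3 + 1 + y + y ^ 6 + y ^ 15 := by
  simp [fV, Fin.sum_univ_succ, cost]
  ring

theorem fD_eq (z : ℝ) :
    fD z = 1 + z + z ^ 3 + z ^ 4 + z ^ 8 + z ^ 9 + z ^ 11 := by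
  simp [fD, Fin.sum_univ_succ, wt]
  ring

theorem mu_eq (y : ℝ) :
    mu y = (21 * y ^ 21 + 10 * y ^ 10 + 3 * y ^ 3 + y + 6 * y ^ 6 + 15 * y ^ 15) / fV y := by
  rw [mu]
  congr 1
  simp [Fin.sum_univ_succ, cost]
  ring

theorem fV_pos {y : ℝ} (hy : 0 < y) : 0 < fV y := by
  rw [fV_eq]; positivity

theorem fD_pos {y : ℝ} (hy : 0 < y) : 0 < fD y := by
  rw [fD_eq]; positivity

/-- A rational power inequality implies the logarithmic one. -/
theorem node_of_pow {ρ y x v d : ℝ} (k m : ℕ) (hk : 0 < k) (hρ : 0 < ρ) (hy : 0 < y)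
    (hx : 0 < x) (hv : 0 < v) (hv' : v ≤ fV y) (hd : fD (x ^ 2) ≤ d)
    (hmu : (m : ℝ) / k * (Real.log x - Real.log y) ≤ mu y * (Real.log x - Real.log y))
    (hpow : (ρ * d) ^ k * y ^ m < v ^ k * x ^ m) : Node ρ y x := by
  have hD : 0 < fD (x ^ 2) := fD_pos (by positivity)
  have hd0 : 0 < d := lt_of_lt_of_le hD hd
  have hk' : (0 : ℝ) < k := by exact_mod_cast hk
  have h1 := Real.log_lt_log (by positivity) hpow
  rw [Real.log_mul (by positivity) (by positivity), Real.log_mul (by positivity) (by positivity),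
    Real.log_pow, Real.log_pow, Real.log_pow, Real.log_pow,
    Real.log_mul hρ.ne' hd0.ne'] at h1
  have h2 : Real.log v ≤ Real.log (fV y) := Real.log_le_log hv hv'
  have h3 : Real.log (fD (x ^ 2)) ≤ Real.log d := Real.log_le_log hD hd
  have h4 : (k : ℝ) * ((m : ℝ) / k * (Real.log x - Real.log y))
      = m * (Real.log x - Real.log y) := by
    field_simp
  unfold Node
  have h5 : (k : ℝ) * (Real.log ρ + Real.log d)
      < k * (Real.log v + (m : ℝ) / k * (Real.log x - Real.log y)) := by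
    rw [mul_add, mul_add, h4]
    linarith
  have h6 := lt_of_mul_lt_mul_left h5 hk'.le
  linarith

theorem node_of_pow_le {ρ y x v d : ℝ} (k m : ℕ) (hk : 0 < k) (hρ : 0 < ρ) (hy : 0 < y)
    (hyx : y ≤ x) (hv : 0 < v) (hv' : v ≤ fV y) (hd : fD (x ^ 2) ≤ d)
    (hmu : (m : ℝ) * fV y ≤
      k * (21 * y ^ 21 + 10 * y ^ 10 + 3 * y ^ 3 + y + 6 * y ^ 6 + 15 * y ^ 15))
    (hpow : (ρ * d) ^ k * y ^ m < v ^ k * x ^ m) : Node ρ y x := by
  have hk' : (0 : ℝ) < k := by exact_mod_cast hk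
  refine node_of_pow k m hk hρ hy (hy.trans_le hyx) hv hv' hd ?_ hpow
  refine mul_le_mul_of_nonneg_right ?_ (sub_nonneg.mpr (Real.log_le_log hy hyx))
  rw [mu_eq, div_le_div_iff₀ hk' (fV_pos hy)]
  linarith

theorem node_of_pow_ge {ρ y x v d : ℝ} (k m : ℕ) (hk : 0 < k) (hρ : 0 < ρ) (hx : 0 < x)
    (hyx : x ≤ y) (hv : 0 < v) (hv' : v ≤ fV y) (hd : fD (x ^ 2) ≤ d)
    (hmu : k * (21 * y ^ 21 + 10 * y ^ 10 + 3 * y ^ 3 + y + 6 * y ^ 6 + 15 * y ^ 15) ≤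
      (m : ℝ) * fV y)
    (hpow : (ρ * d) ^ k * y ^ m < v ^ k * x ^ m) : Node ρ y x := by
  have hk' : (0 : ℝ) < k := by exact_mod_cast hk
  have hy : 0 < y := hx.trans_le hyx
  refine node_of_pow k m hk hρ hy hx hv hv' hd ?_ hpow
  refine mul_le_mul_of_nonpos_right ?_ (sub_nonpos.mpr (Real.log_le_log hx hyx))
  rw [mu_eq, div_le_div_iff₀ (fV_pos hy) hk']
  linarith

theorem node_peak : Node 1.316 0.655 0.655 := by
  refine node_of_pow_le (v := 2.031404) (d := 1.543603) 1 0 ?_ ?_ ?_ ?_ ?_ ?_ ?_ ?_ ?_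
  all_goals norm_num [fV_eq, fD_eq]

theorem node0 : Node 1.309 0.562 0.585 ∧ Node 1.309 0.575 0.585 := by
  constructor
  · refine node_of_pow_le (v := 1.774337) (d := 1.396283) 31 23 ?_ ?_ ?_ ?_ ?_ ?_ ?_ ?_ ?_
    all_goals norm_num [fV_eq, fD_eq]
  · refine node_of_pow_le (v := 1.805458) (d := 1.396283) 4 3 ?_ ?_ ?_ ?_ ?_ ?_ ?_ ?_ ?_
    all_goals norm_num [fV_eq, fD_eq]

theorem node1 : Node 1.309 0.575 0.604 ∧ Node 1.309 0.63 0.604 := by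
  constructor
  · refine node_of_pow_le (v := 1.805458) (d := 1.431527) 9 7 ?_ ?_ ?_ ?_ ?_ ?_ ?_ ?_ ?_
    all_goals norm_num [fV_eq, fD_eq]
  · refine node_of_pow_ge (v := 1.953458) (d := 1.431527) 25 24 ?_ ?_ ?_ ?_ ?_ ?_ ?_ ?_ ?_
    all_goals norm_num [fV_eq, fD_eq]

theorem node2 : Node 1.309 0.63 0.67 ∧ Node 1.309 0.705 0.67 := by
  constructor
  · refine node_of_pow_le (v := 1.953458) (d := 1.582504) 23 22 ?_ ?_ ?_ ?_ ?_ ?_ ?_ ?_ ?_
    all_goals norm_num [fV_eq, fD_eq]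
  · refine node_of_pow_ge (v := 2.214446) (d := 1.582504) 13 17 ?_ ?_ ?_ ?_ ?_ ?_ ?_ ?_ ?_
    all_goals norm_num [fV_eq, fD_eq]

theorem node3 : Node 1.309 0.705 0.719 ∧ Node 1.309 0.734 0.719 := by
  constructor
  · refine node_of_pow_le (v := 2.214446) (d := 1.734983) 10 13 ?_ ?_ ?_ ?_ ?_ ?_ ?_ ?_ ?_
    all_goals norm_num [fV_eq, fD_eq]
  · refine node_of_pow_ge (v := 2.342397) (d := 1.734983) 49 73 ?_ ?_ ?_ ?_ ?_ ?_ ?_ ?_ ?_
    all_goals norm_num [fV_eq, fD_eq]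

theorem mu_lt_of {y c : ℝ} (hy : 0 < y)
    (h : 21 * y ^ 21 + 10 * y ^ 10 + 3 * y ^ 3 + y + 6 * y ^ 6 + 15 * y ^ 15 < c * fV y) :
    mu y < c := by
  rw [mu_eq, div_lt_iff₀ (fV_pos hy)]
  exact h

theorem lt_mu_of {y c : ℝ} (hy : 0 < y)
    (h : c * fV y < 21 * y ^ 21 + 10 * y ^ 10 + 3 * y ^ 3 + y + 6 * y ^ 6 + 15 * y ^ 15) :
    c < mu y := by
  rw [mu_eq, lt_div_iff₀ (fV_pos hy)]
  exact h

theorem mu_order : mu 0.562 < mu 0.575 ∧ mu 0.575 < mu 0.63 ∧ mu 0.63 < mu 0.705 ∧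
    mu 0.705 < mu 0.734 := by
  refine ⟨?_, ?_, ?_, ?_⟩
  · refine (mu_lt_of (c := 0.76) ?_ ?_).trans (lt_mu_of ?_ ?_)
    all_goals norm_num [fV_eq]
  · refine (mu_lt_of (c := 0.8) ?_ ?_).trans (lt_mu_of ?_ ?_)
    all_goals norm_num [fV_eq]
  · refine (mu_lt_of (c := 1) ?_ ?_).trans (lt_mu_of ?_ ?_)
    all_goals norm_num [fV_eq]
  · refine (mu_lt_of (c := 1.4) ?_ ?_).trans (lt_mu_of ?_ ?_)
    all_goals norm_num [fV_eq]

theorem mu_octave : 2 * mu 0.562 < mu 0.734 := by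
  have h1 : mu 0.562 < 0.743 := by
    refine mu_lt_of ?_ ?_
    all_goals norm_num [fV_eq]
  have h2 : 1.489 < mu 0.734 := by
    refine lt_mu_of ?_ ?_
    all_goals norm_num [fV_eq]
  linarith

end PoolChi
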