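import Pool.Agent.Lib.MP_d0bb7d_co.Indep
import Pool.Agent.Lib.MP_d0bb7d_co.Count
import Pool.Agent.Lib.MP_d0bb7d_co.Numerics

namespace PoolChi
open Finset Filter

theorem fV_ge_one {y : ℝ} (h : 0 < y) : 1 ≤ fV y := by
  have h1 : y ^ cost 3 ≤ fV y :=
    Finset.single_le_sum (f := fun b : Fin 7 => y ^ cost b) (fun b _ => (pow_pos h _).le)
      (Finset.mem_univ 3)
  have h2 : cost 3 = 0 := rfl
  rw [h2, pow_zero] at h1
  exact h1

theorem fD_ge_one {z : ℝ} (h : 0 < z) : 1 ≤ fD z := by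
  have h1 : z ^ wt 0 ≤ fD z :=
    Finset.single_le_sum (f := fun b : Fin 7 => z ^ wt b) (fun b _ => (pow_pos h _).le)
      (Finset.mem_univ 0)
  have h2 : wt 0 = 0 := rfl
  rw [h2, pow_zero] at h1
  exact h1

/-- exponential growth beats a cubic polynomial -/
theorem exp_beats (δ c B K : ℝ) (hδ : 0 < δ) (hc : 0 < c) (hB : 0 ≤ B) (hK : 0 ≤ K) :
    ∀ᶠ n : ℕ in atTop, (6 * (n : ℝ) + 1) * (9 * n + 1) * (B * n + K) ≤ c * Real.exp (n * δ) := by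
  have hr : 1 < Real.exp δ := Real.one_lt_exp_iff.mpr hδ
  have ht := tendsto_pow_const_div_const_pow_of_one_lt 3 hr
  have hη : 0 < c / (70 * (B + K) + 1) := by positivity
  have hev := (ht.eventually (gt_mem_nhds hη)).and (eventually_ge_atTop 1)
  filter_upwards [hev] with n hn
  obtain ⟨h1, h2⟩ := hn
  have hn1 : (1 : ℝ) ≤ n := by exact_mod_cast h2
  have hpow : 0 < Real.exp δ ^ n := by positivity
  rw [div_lt_div_iff₀ hpow (by positivity)] at h1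
  have he : Real.exp (n * δ) = Real.exp δ ^ n := by
    rw [← Real.exp_nat_mul]
  rw [he]
  have h3 : (6 * (n : ℝ) + 1) * (9 * n + 1) * (B * n + K) ≤ (7 * n) * (10 * n) * ((B + K) * n) := by
    have a1 : 6 * (n : ℝ) + 1 ≤ 7 * n := by linarith
    have a2 : 9 * (n : ℝ) + 1 ≤ 10 * n := by linarith
    have a3 : B * n + K ≤ (B + K) * n := by nlinarith
    have b1 : (6 * (n : ℝ) + 1) * (9 * n + 1) ≤ (7 * n) * (10 * n) := by
      apply mul_le_mul a1 a2 (by positivity) (by positivity)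
    apply mul_le_mul b1 a3 (by positivity) (by positivity)
  have h4 : (7 * (n : ℝ)) * (10 * n) * ((B + K) * n) = (n : ℝ) ^ 3 * (70 * (B + K)) := by ring
  have h5 : (n : ℝ) ^ 3 * (70 * (B + K)) ≤ (n : ℝ) ^ 3 * (70 * (B + K) + 1) := by
    apply mul_le_mul_of_nonneg_left (by linarith) (by positivity)
  linarith

/-- Core asymptotic statement. -/
theorem core (ρ y₁ y₂ x : ℝ) (hρ : 1 < ρ) (h1 : 0 < y₁) (h1' : y₁ < 1) (h2 : 0 < y₂)
    (h2' : y₂ < 1) (hx : 0 < x) (hx' : x < 1) (n1 : Node ρ y₁ x) (n2 : Node ρ y₂ x) :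
    ∃ ε₀ : ℝ, 0 < ε₀ ∧ ∀ ε : ℝ, 0 < ε → ε < ε₀ → ∀ K : ℝ, ∀ᶠ n : ℕ in atTop,
      ∀ m₁ m₂ a k : ℕ, m₁ + m₂ = n →
        (mu y₁ + ε) * m₁ + (mu y₂ + ε) * m₂ ≤ 2 * 2 ^ a - 1 →
        (2 * 2 ^ a - 1 : ℝ) ≤ (mu y₁ + ε) * m₁ + (mu y₂ + ε) * m₂ + K →
        Nonempty ((Ndef2032f.unitDistanceGraph n).Coloring (Fin k)) → ρ ^ n ≤ (k : ℝ) := by
  have hμ1 := mu_nonneg h1
  have hμ2 := mu_nonneg h2
  obtain ⟨κ, hκ⟩ : ∃ κ : ℝ, κ = - Real.log x := ⟨_, rfl⟩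
  have hκ0 : 0 < κ := by
    rw [hκ]; have := Real.log_neg hx hx'; linarith
  obtain ⟨D, hD⟩ : ∃ D : ℝ, D = fD (x ^ 2) := ⟨_, rfl⟩
  have hD1 : 1 ≤ D := by rw [hD]; exact fD_ge_one (by positivity)
  obtain ⟨H₁, hH1⟩ : ∃ H : ℝ, H = Real.log (fV y₁) - mu y₁ * Real.log y₁ := ⟨_, rfl⟩
  obtain ⟨H₂, hH2⟩ : ∃ H : ℝ, H = Real.log (fV y₂) - mu y₂ * Real.log y₂ := ⟨_, rfl⟩
  unfold Node at n1 n2
  rw [← hD] at n1 n2
  obtain ⟨δ, hδ0, hδ1, hδ2⟩ : ∃ δ : ℝ, 0 < δ ∧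
      Real.log ρ + Real.log D + mu y₁ * κ + δ ≤ H₁ ∧
      Real.log ρ + Real.log D + mu y₂ * κ + δ ≤ H₂ := by
    refine ⟨min (H₁ - (Real.log ρ + Real.log D + mu y₁ * κ))
      (H₂ - (Real.log ρ + Real.log D + mu y₂ * κ)), ?_, ?_, ?_⟩
    · apply lt_min
      · rw [hH1, hκ]; linarith
      · rw [hH2, hκ]; linarith
    · have := min_le_left (H₁ - (Real.log ρ + Real.log D + mu y₁ * κ))
        (H₂ - (Real.log ρ + Real.log D + mu y₂ * κ))
      linarith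
    · have := min_le_right (H₁ - (Real.log ρ + Real.log D + mu y₁ * κ))
        (H₂ - (Real.log ρ + Real.log D + mu y₂ * κ))
      linarith
  refine ⟨min 1 (δ / (2 * (1 + κ))), lt_min one_pos (by positivity), ?_⟩
  intro ε hε hε0 K
  have hε1 : ε < 1 := lt_of_lt_of_le hε0 (min_le_left _ _)
  have hε2 : ε * (1 + κ) ≤ δ / 2 := by
    have := lt_of_lt_of_le hε0 (min_le_right _ _)
    rw [lt_div_iff₀ (by positivity)] at this
    linarith
  obtain ⟨c₁, hc1, hN1⟩ := NV_lower y₁ h1 h1' ε hε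
  obtain ⟨c₂, hc2, hN2⟩ := NV_lower y₂ h2 h2' ε hε
  rw [← hH1] at hN1
  rw [← hH2] at hN2
  have hcc : 0 < c₁ * c₂ * Real.exp (κ * (1 - K)) := by positivity
  filter_upwards [exp_beats (δ / 2) (c₁ * c₂ * Real.exp (κ * (1 - K))) (mu y₁ + mu y₂ + 1) |K|
    (by positivity) hcc (by positivity) (abs_nonneg K)] with n hn
  intro m₁ m₂ a k hm hlo hhi hcol
  obtain ⟨col⟩ := hcol
  subst hm
  have hq1 : (1 : ℝ) ≤ 2 ^ a := one_le_pow₀ (by norm_num)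
  have hm1 : (0 : ℝ) ≤ (m₁ : ℝ) := Nat.cast_nonneg _
  have hm2 : (0 : ℝ) ≤ (m₂ : ℝ) := Nat.cast_nonneg _
  -- lower bound for the number of words
  have hNV : c₁ * c₂ * Real.exp (m₁ * (H₁ - ε) + m₂ * (H₂ - ε)) ≤
      (NV (m₁ + m₂) (2 * 2 ^ a - 1) : ℝ) := by
    have e1 := hN1 m₁
    have e2 := hN2 m₂
    have e3 : NV m₁ ((mu y₁ + ε) * m₁) * NV m₂ ((mu y₂ + ε) * m₂) ≤
        NV (m₁ + m₂) (2 * 2 ^ a - 1) :=
      le_trans (NV_mul _ _ _ _) (NV_mono _ hlo)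
    have e4 : (NV m₁ ((mu y₁ + ε) * m₁) : ℝ) * NV m₂ ((mu y₂ + ε) * m₂) ≤
        NV (m₁ + m₂) (2 * 2 ^ a - 1) := by exact_mod_cast e3
    refine le_trans ?_ e4
    rw [Real.exp_add]
    calc c₁ * c₂ * (Real.exp (m₁ * (H₁ - ε)) * Real.exp (m₂ * (H₂ - ε)))
        = (c₁ * Real.exp (m₁ * (H₁ - ε))) * (c₂ * Real.exp (m₂ * (H₂ - ε))) := by ring
      _ ≤ _ := mul_le_mul e1 e2 (by positivity) (Nat.cast_nonneg _)
  -- the exponent
  have hexp : (↑(m₁ + m₂) : ℝ) * (Real.log ρ + Real.log D + δ / 2) + κ * (2 * 2 ^ a - 1 - K) ≤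
      m₁ * (H₁ - ε) + m₂ * (H₂ - ε) := by
    push_cast
    have a1 := mul_le_mul_of_nonneg_left hδ1 hm1
    have a2 := mul_le_mul_of_nonneg_left hδ2 hm2
    have a3 := mul_le_mul_of_nonneg_left hhi hκ0.le
    have a4 := mul_le_mul_of_nonneg_left hε2 hm1
    have a5 := mul_le_mul_of_nonneg_left hε2 hm2
    nlinarith
  -- upper bound for the exponent vectors
  have hNA : (NA (m₁ + m₂) (2 ^ a - 1) : ℝ) ≤
      Real.exp ((↑(m₁ + m₂) : ℝ) * Real.log D + κ * (2 * 2 ^ a - 2)) := by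
    have b1 := NA_upper (m₁ + m₂) (2 ^ a - 1) (x ^ 2) (by positivity)
      (pow_le_one₀ hx.le hx'.le)
    rw [← hD] at b1
    have b2 : (x ^ 2) ^ (2 ^ a - 1) = Real.exp (-(κ * (2 * 2 ^ a - 2))) := by
      rw [← pow_mul, ← Real.exp_log (pow_pos hx (2 * (2 ^ a - 1))), Real.log_pow]
      congr 1
      have : ((2 * (2 ^ a - 1) : ℕ) : ℝ) = 2 * 2 ^ a - 2 := by
        rw [Nat.cast_mul, Nat.cast_sub (Nat.one_le_two_pow)]
        push_cast; ring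
      rw [this, hκ]; ring
    have b3 : D ^ (m₁ + m₂) = Real.exp ((↑(m₁ + m₂) : ℝ) * Real.log D) := by
      rw [Real.exp_nat_mul, Real.exp_log (by linarith)]
    rw [b2, b3] at b1
    have b4 : Real.exp (κ * (2 * 2 ^ a - 2)) * Real.exp (-(κ * (2 * 2 ^ a - 2))) = 1 := by
      rw [← Real.exp_add]; simp
    rw [Real.exp_add]
    calc (NA (m₁ + m₂) (2 ^ a - 1) : ℝ)
        = Real.exp (κ * (2 * 2 ^ a - 2)) *
          (Real.exp (-(κ * (2 * 2 ^ a - 2))) * NA (m₁ + m₂) (2 ^ a - 1)) := by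
          rw [← mul_assoc, b4, one_mul]
      _ ≤ Real.exp (κ * (2 * 2 ^ a - 2)) * Real.exp ((↑(m₁ + m₂) : ℝ) * Real.log D) :=
          mul_le_mul_of_nonneg_left b1 (Real.exp_pos _).le
      _ = _ := by ring
  have hmain := colour_bound (m₁ + m₂) a k col
  have hmain' : (NV (m₁ + m₂) (2 * 2 ^ a - 1) : ℝ) ≤
      (6 * (↑(m₁ + m₂) : ℝ) + 1) * (9 * (↑(m₁ + m₂) : ℝ) + 1) * k *
        (2 ^ a * NA (m₁ + m₂) (2 ^ a - 1)) := by
    exact_mod_cast hmain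
  -- bound on q
  have hq : (2 : ℝ) ^ a ≤ (mu y₁ + mu y₂ + 1) * (↑(m₁ + m₂) : ℝ) + |K| := by
    push_cast
    have := le_abs_self K
    nlinarith [mul_nonneg hμ1 hm2, mul_nonneg hμ2 hm1, mul_nonneg hμ1 hm1, mul_nonneg hμ2 hm2]
  obtain ⟨N, hNdef⟩ : ∃ N : ℝ, N = (↑(m₁ + m₂) : ℝ) := ⟨_, rfl⟩
  rw [← hNdef] at hn hexp hNA hmain' hq
  have hN0 : 0 ≤ N := by rw [hNdef]; exact Nat.cast_nonneg _
  -- combine
  have hk0 : (0 : ℝ) ≤ k := Nat.cast_nonneg _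
  have c1 : c₁ * c₂ * Real.exp (N * (Real.log ρ + Real.log D + δ / 2) + κ * (2 * 2 ^ a - 1 - K)) ≤
      (6 * N + 1) * (9 * N + 1) * k *
        (2 ^ a * Real.exp (N * Real.log D + κ * (2 * 2 ^ a - 2))) := by
    calc _ ≤ c₁ * c₂ * Real.exp (m₁ * (H₁ - ε) + m₂ * (H₂ - ε)) := by
            apply mul_le_mul_of_nonneg_left (Real.exp_le_exp.mpr hexp) (by positivity)
      _ ≤ _ := hNV
      _ ≤ _ := hmain'
      _ ≤ _ := by
            apply mul_le_mul_of_nonneg_left _ (by positivity)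
            apply mul_le_mul_of_nonneg_left hNA (by positivity)
  have c2 : Real.exp (N * (Real.log ρ + Real.log D + δ / 2) + κ * (2 * 2 ^ a - 1 - K)) =
      Real.exp (N * Real.log ρ) * Real.exp (N * (δ / 2)) * Real.exp (κ * (1 - K)) *
        Real.exp (N * Real.log D + κ * (2 * 2 ^ a - 2)) := by
    rw [← Real.exp_add, ← Real.exp_add, ← Real.exp_add]
    congr 1; ring
  rw [c2] at c1
  have hE : 0 < Real.exp (N * Real.log D + κ * (2 * 2 ^ a - 2)) := Real.exp_pos _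
  have c3 : c₁ * c₂ * (Real.exp (N * Real.log ρ) * Real.exp (N * (δ / 2)) *
      Real.exp (κ * (1 - K))) ≤ (6 * N + 1) * (9 * N + 1) * k * 2 ^ a := by
    by_contra hcon
    push Not at hcon
    have := mul_lt_mul_of_pos_right hcon hE
    nlinarith
  have c4 : (6 * N + 1) * (9 * N + 1) * k * 2 ^ a ≤
      k * ((6 * N + 1) * (9 * N + 1) * ((mu y₁ + mu y₂ + 1) * N + |K|)) := by
    have : (6 * N + 1) * (9 * N + 1) * k * 2 ^ a ≤
      (6 * N + 1) * (9 * N + 1) * k * ((mu y₁ + mu y₂ + 1) * N + |K|) :=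
      mul_le_mul_of_nonneg_left hq (by positivity)
    linarith
  have c5 : k * ((6 * N + 1) * (9 * N + 1) * ((mu y₁ + mu y₂ + 1) * N + |K|)) ≤
      k * (c₁ * c₂ * Real.exp (κ * (1 - K)) * Real.exp (N * (δ / 2))) :=
    mul_le_mul_of_nonneg_left hn hk0
  have c6 : Real.exp (N * Real.log ρ) * (c₁ * c₂ * Real.exp (κ * (1 - K)) *
      Real.exp (N * (δ / 2))) ≤ k * (c₁ * c₂ * Real.exp (κ * (1 - K)) *
      Real.exp (N * (δ / 2))) := by
    calc _ = c₁ * c₂ * (Real.exp (N * Real.log ρ) * Real.exp (N * (δ / 2)) *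
      Real.exp (κ * (1 - K))) := by ring
      _ ≤ _ := c3
      _ ≤ _ := c4
      _ ≤ _ := c5
  have c7 : Real.exp (N * Real.log ρ) ≤ k := le_of_mul_le_mul_right c6 (by positivity)
  have c8 : ρ ^ (m₁ + m₂) = Real.exp (N * Real.log ρ) := by
    rw [hNdef, Real.exp_nat_mul, Real.exp_log (by linarith)]
  rw [c8]
  exact c7

end PoolChi
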