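import Mathlib
import Pool.Prelude.Def_F_0b2be043

/-!
# Chromatic number of Euclidean space: basic definitions

Words are functions `Fin n → Fin 7`; the symbol `b : Fin 7` stands for the integer `b - 3`.
-/

namespace PoolChi

open Finset Polynomial

/-- The integer letter of a symbol: `b ↦ b - 3`, with values `-3, ..., 3`. -/
def letter (b : Fin 7) : ℤ := ((b : ℕ) : ℤ) - 3

/-- The budget of a symbol: `x (2 x - 1)` for the letter `x`, that is
`21, 10, 3, 0, 1, 6, 15` for `x = -3, -2, -1, 0, 1, 2, 3`. -/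
def cost (b : Fin 7) : ℕ := ![21, 10, 3, 0, 1, 6, 15] b

/-- The order exponents `e_j = ∑_{i ≤ j} 2^(v_2 i)`: `0, 1, 3, 4, 8, 9, 11`. -/
def wt (j : Fin 7) : ℕ := ![0, 1, 3, 4, 8, 9, 11] j

/-- Number of words of length `n` with total budget at most the real number `t`. -/
noncomputable def NV (n : ℕ) (t : ℝ) : ℕ :=
  (univ.filter fun v : Fin n → Fin 7 => ((∑ i, cost (v i) : ℕ) : ℝ) ≤ t).card

/-- Number of exponent vectors of length `n` with total weight at most `m`. -/
def NA (n m : ℕ) : ℕ :=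
  (univ.filter fun α : Fin n → Fin 7 => ∑ i, wt (α i) ≤ m).card

/-- `f(y) = 1 + y + y^3 + y^6 + y^10 + y^15 + y^21`. -/
noncomputable def fV (y : ℝ) : ℝ := ∑ b : Fin 7, y ^ cost b

/-- `D(z) = 1 + z + z^3 + z^4 + z^8 + z^9 + z^11`. -/
noncomputable def fD (z : ℝ) : ℝ := ∑ j : Fin 7, z ^ wt j

/-- Mean budget under the Gibbs weights `y^cost`. -/
noncomputable def mu (y : ℝ) : ℝ := (∑ b : Fin 7, (cost b : ℝ) * y ^ cost b) / fV y

end PoolChi
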