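import Pool.Agent.Lib.MP_d0bb7d_co.Defs

namespace PoolChi
open Finset

/-- The cube colouring of `ℝ^n`. -/
noncomputable def cubeColour (n : ℕ) (x : EuclideanSpace ℝ (Fin n)) : Fin n → ZMod (n + 3) :=
  fun i => ((⌊((n : ℝ) + 1) * x i⌋ : ℤ) : ZMod (n + 3))

theorem cubeColour_ne (n : ℕ) (x y : EuclideanSpace ℝ (Fin n)) (h : dist x y = 1) :
    cubeColour n x ≠ cubeColour n y := by
  intro hc
  have hn : (0 : ℝ) < (n : ℝ) + 1 := by positivity
  rw [EuclideanSpace.dist_eq] at h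
  have hsum : ∑ i, dist (x i) (y i) ^ 2 = 1 := by
    have h1 : 0 ≤ ∑ i, dist (x i) (y i) ^ 2 := Finset.sum_nonneg fun i _ => sq_nonneg _
    have h2 := Real.sq_sqrt h1
    rw [h] at h2
    linarith
  have hle : ∀ i, |x i - y i| ≤ 1 := by
    intro i
    have h1 : dist (x i) (y i) ^ 2 ≤ 1 := by
      rw [← hsum]
      exact Finset.single_le_sum (f := fun j => dist (x j) (y j) ^ 2)
        (fun j _ => sq_nonneg _) (Finset.mem_univ i)
    rw [Real.dist_eq] at h1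
    nlinarith [abs_nonneg (x i - y i)]
  have hlt : ∀ i, |x i - y i| < 1 / ((n : ℝ) + 1) := by
    intro i
    have h1 : ((⌊((n : ℝ) + 1) * x i⌋ : ℤ) : ZMod (n + 3)) =
        ((⌊((n : ℝ) + 1) * y i⌋ : ℤ) : ZMod (n + 3)) := congrFun hc i
    rw [ZMod.intCast_eq_intCast_iff_dvd_sub] at h1
    have h2 := abs_le.mp (hle i)
    have f1 := Int.floor_le (((n : ℝ) + 1) * x i)
    have f2 := Int.lt_floor_add_one (((n : ℝ) + 1) * x i)
    have f3 := Int.floor_le (((n : ℝ) + 1) * y i)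
    have f4 := Int.lt_floor_add_one (((n : ℝ) + 1) * y i)
    have g1 : ((⌊((n : ℝ) + 1) * y i⌋ - ⌊((n : ℝ) + 1) * x i⌋ : ℤ) : ℝ) < (n : ℝ) + 3 := by
      push_cast; nlinarith
    have g2 : -((n : ℝ) + 3) < ((⌊((n : ℝ) + 1) * y i⌋ - ⌊((n : ℝ) + 1) * x i⌋ : ℤ) : ℝ) := by
      push_cast; nlinarith
    have g3 : ⌊((n : ℝ) + 1) * y i⌋ - ⌊((n : ℝ) + 1) * x i⌋ < (n : ℤ) + 3 := by
      exact_mod_cast g1
    have g4 : -((n : ℤ) + 3) < ⌊((n : ℝ) + 1) * y i⌋ - ⌊((n : ℝ) + 1) * x i⌋ := by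
      exact_mod_cast g2
    have g5 : ⌊((n : ℝ) + 1) * y i⌋ - ⌊((n : ℝ) + 1) * x i⌋ = 0 := by
      apply Int.eq_zero_of_abs_lt_dvd (m := (n : ℤ) + 3)
      · exact_mod_cast h1
      · exact abs_lt.mpr ⟨g4, g3⟩
    have g6 : ⌊((n : ℝ) + 1) * y i⌋ = ⌊((n : ℝ) + 1) * x i⌋ := by linarith
    rw [g6] at f3 f4
    rw [abs_lt, lt_div_iff₀ hn, ← neg_div, div_lt_iff₀ hn]
    constructor <;> nlinarith
  have hfin : ∑ i, dist (x i) (y i) ^ 2 ≤ ∑ _i : Fin n, (1 / ((n : ℝ) + 1)) ^ 2 := by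
    apply Finset.sum_le_sum
    intro i _
    rw [Real.dist_eq]
    exact pow_le_pow_left₀ (abs_nonneg _) (hlt i).le 2
  rw [hsum, Finset.sum_const, Finset.card_univ, Fintype.card_fin, nsmul_eq_mul, div_pow,
    one_pow, mul_one_div, le_div_iff₀ (by positivity)] at hfin
  nlinarith [Nat.cast_nonneg (α := ℝ) n]

/-- The chromatic number of `ℝ^n` is finite (cubes). -/
theorem chromaticNumber_ne_top (n : ℕ) :
    (Ndef2032f.unitDistanceGraph n).chromaticNumber ≠ ⊤ := by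
  have C : (Ndef2032f.unitDistanceGraph n).Coloring (Fin n → ZMod (n + 3)) :=
    SimpleGraph.Coloring.mk (cubeColour n) (fun {x y} h => cubeColour_ne n x y h)
  have h1 := C.colorable
  rw [SimpleGraph.chromaticNumber_ne_top_iff_exists]
  exact ⟨_, h1⟩

/-- hence there is a proper colouring with `toNat` of the chromatic number many colours. -/
theorem exists_coloring (n : ℕ) :
    Nonempty ((Ndef2032f.unitDistanceGraph n).Coloring
      (Fin (Ndef2032f.unitDistanceGraph n).chromaticNumber.toNat)) :=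
  SimpleGraph.colorable_of_chromaticNumber_ne_top (chromaticNumber_ne_top n)

end PoolChi
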