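import Pool.Agent.Lib.MP_d0bb7d_co.Core
import Pool.Agent.Lib.MP_d0bb7d_co.Finite

namespace PoolChi
open Finset Filter

/-- Two neighbouring nodes cover a whole interval of values of `q / n`. -/
theorem interval (ρ y₁ y₂ x : ℝ) (hρ : 1 < ρ) (h1 : 0 < y₁) (h1' : y₁ < 1) (h2 : 0 < y₂)
    (h2' : y₂ < 1) (hx : 0 < x) (hx' : x < 1) (n1 : Node ρ y₁ x) (n2 : Node ρ y₂ x)
    (hmu : mu y₁ < mu y₂) :
    ∃ ε₀ : ℝ, 0 < ε₀ ∧ ∀ ε : ℝ, 0 < ε → ε < ε₀ → ∀ᶠ n : ℕ in atTop,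
      ∀ a k : ℕ, (mu y₁ + ε) * n ≤ 2 * 2 ^ a - 1 →
        (2 * 2 ^ a - 1 : ℝ) ≤ (mu y₂ + ε) * n →
        Nonempty ((Ndef2032f.unitDistanceGraph n).Coloring (Fin k)) → ρ ^ n ≤ (k : ℝ) := by
  obtain ⟨ε₀, hε₀, hcore⟩ := core ρ y₁ y₂ x hρ h1 h1' h2 h2' hx hx' n1 n2
  refine ⟨ε₀, hε₀, ?_⟩
  intro ε hε hε'
  filter_upwards [hcore ε hε hε' (mu y₂ - mu y₁)] with n hn
  intro a k hlo hhi hcol
  have hd : 0 < mu y₂ - mu y₁ := by linarith
  have hT : 0 ≤ ((2 * 2 ^ a - 1 : ℝ) - (mu y₁ + ε) * n) / (mu y₂ - mu y₁) :=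
    div_nonneg (by linarith) hd.le
  have hf1 := Nat.floor_le hT
  have hf2 := Nat.lt_floor_add_one (((2 * 2 ^ a - 1 : ℝ) - (mu y₁ + ε) * n) / (mu y₂ - mu y₁))
  obtain ⟨m, hm⟩ : ∃ m : ℕ, m = ⌊((2 * 2 ^ a - 1 : ℝ) - (mu y₁ + ε) * n) / (mu y₂ - mu y₁)⌋₊ :=
    ⟨_, rfl⟩
  rw [← hm] at hf1 hf2
  rw [le_div_iff₀ hd] at hf1
  rw [div_lt_iff₀ hd] at hf2
  have hmn : m ≤ n := by
    have : (m : ℝ) * (mu y₂ - mu y₁) ≤ n * (mu y₂ - mu y₁) := by nlinarith
    have := le_of_mul_le_mul_right this hd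
    exact_mod_cast this
  refine hn (n - m) m a k (Nat.sub_add_cancel hmn) ?_ ?_ hcol
  · rw [Nat.cast_sub hmn]; nlinarith
  · rw [Nat.cast_sub hmn]; nlinarith

theorem mu_pos {y : ℝ} (h : 0 < y) : 0 < mu y := by
  unfold mu
  apply div_pos _ (lt_of_lt_of_le zero_lt_one (fV_ge_one h))
  apply Finset.sum_pos' (fun b _ => by positivity)
  refine ⟨4, Finset.mem_univ _, ?_⟩
  have : cost 4 = 1 := rfl
  rw [this]
  simpa using h

/-- A power of two in every octave. -/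
theorem exists_octave (A B : ℝ) (hA : 0 < A) (hAB : 2 * A < B) :
    ∀ᶠ n : ℕ in atTop, ∃ a : ℕ, A * n ≤ 2 * 2 ^ a - 1 ∧ (2 * 2 ^ a - 1 : ℝ) ≤ B * n := by
  have e1 : ∀ᶠ n : ℕ in atTop, 1 / A < (n : ℝ) :=
    tendsto_natCast_atTop_atTop.eventually (eventually_gt_atTop _)
  have e2 : ∀ᶠ n : ℕ in atTop, 1 / (B - 2 * A) < (n : ℝ) :=
    tendsto_natCast_atTop_atTop.eventually (eventually_gt_atTop _)
  filter_upwards [e1, e2] with n h1 h2
  rw [div_lt_iff₀ hA] at h1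
  rw [div_lt_iff₀ (by linarith)] at h2
  have hex : ∃ a : ℕ, A * n ≤ 2 * 2 ^ a - 1 := by
    obtain ⟨a, ha⟩ := pow_unbounded_of_one_lt ((A * n + 1) / 2) (one_lt_two)
    exact ⟨a, by linarith⟩
  classical
  refine ⟨Nat.find hex, Nat.find_spec hex, ?_⟩
  obtain hz | ⟨b, hb⟩ : Nat.find hex = 0 ∨ ∃ b, Nat.find hex = b + 1 := by
    cases h : Nat.find hex with
    | zero => exact Or.inl rfl
    | succ b => exact Or.inr ⟨b, rfl⟩
  · exfalso
    have := Nat.find_spec hex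
    rw [hz] at this
    norm_num at this
    linarith
  · have hmin := Nat.find_min hex (m := b) (by omega)
    push Not at hmin
    rw [hb, pow_succ]
    nlinarith

theorem final_all :
    ∀ᶠ n : ℕ in atTop,
      (1.309 : ℝ) ^ n ≤ ((Ndef2032f.unitDistanceGraph n).chromaticNumber.toNat : ℝ) := by
  obtain ⟨o1, o2, o3, o4⟩ := mu_order
  obtain ⟨s1, hs1, I1⟩ := interval 1.309 0.562 0.575 0.585 (by norm_num) (by norm_num)
    (by norm_num) (by norm_num) (by norm_num) (by norm_num) (by norm_num) node0.1 node0.2 o1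
  obtain ⟨s2, hs2, I2⟩ := interval 1.309 0.575 0.63 0.604 (by norm_num) (by norm_num)
    (by norm_num) (by norm_num) (by norm_num) (by norm_num) (by norm_num) node1.1 node1.2 o2
  obtain ⟨s3, hs3, I3⟩ := interval 1.309 0.63 0.705 0.67 (by norm_num) (by norm_num)
    (by norm_num) (by norm_num) (by norm_num) (by norm_num) (by norm_num) node2.1 node2.2 o3
  obtain ⟨s4, hs4, I4⟩ := interval 1.309 0.705 0.734 0.719 (by norm_num) (by norm_num)
    (by norm_num) (by norm_num) (by norm_num) (by norm_num) (by norm_num) node3.1 node3.2 o4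
  have h0 : 0 < mu 0.562 := mu_pos (by norm_num)
  have hoct := mu_octave
  obtain ⟨ε, hε, t1, t2, t3, t4, t5⟩ : ∃ ε : ℝ, 0 < ε ∧ ε < s1 ∧ ε < s2 ∧ ε < s3 ∧ ε < s4 ∧
      ε < mu 0.734 - 2 * mu 0.562 := by
    have hp : 0 < min (min s1 s2) (min (min s3 s4) (mu 0.734 - 2 * mu 0.562)) := by
      refine lt_min (lt_min hs1 hs2) (lt_min (lt_min hs3 hs4) (by linarith))
    refine ⟨min (min s1 s2) (min (min s3 s4) (mu 0.734 - 2 * mu 0.562)) / 2, by linarith, ?_⟩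
    have q1 := min_le_left (min s1 s2) (min (min s3 s4) (mu 0.734 - 2 * mu 0.562))
    have q2 := min_le_right (min s1 s2) (min (min s3 s4) (mu 0.734 - 2 * mu 0.562))
    have q3 := min_le_left s1 s2
    have q4 := min_le_right s1 s2
    have q5 := min_le_left (min s3 s4) (mu 0.734 - 2 * mu 0.562)
    have q6 := min_le_right (min s3 s4) (mu 0.734 - 2 * mu 0.562)
    have q7 := min_le_left s3 s4
    have q8 := min_le_right s3 s4
    refine ⟨by linarith, by linarith, by linarith, by linarith, by linarith⟩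
  filter_upwards [I1 ε hε t1, I2 ε hε t2, I3 ε hε t3, I4 ε hε t4,
    exists_octave (mu 0.562 + ε) (mu 0.734 + ε) (by linarith) (by linarith)] with n J1 J2 J3 J4 hO
  obtain ⟨a, ha1, ha2⟩ := hO
  have hcol := exists_coloring n
  rcases le_total (2 * 2 ^ a - 1 : ℝ) ((mu 0.575 + ε) * n) with c | c
  · exact J1 a _ ha1 c hcol
  rcases le_total (2 * 2 ^ a - 1 : ℝ) ((mu 0.63 + ε) * n) with d | d
  · exact J2 a _ c d hcol
  rcases le_total (2 * 2 ^ a - 1 : ℝ) ((mu 0.705 + ε) * n) with e | e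
  · exact J3 a _ d e hcol
  · exact J4 a _ e ha2 hcol

theorem final_often :
    ∃ᶠ n : ℕ in atTop,
      (1.316 : ℝ) ^ n ≤ ((Ndef2032f.unitDistanceGraph n).chromaticNumber.toNat : ℝ) := by
  obtain ⟨s, hs, hcore⟩ := core 1.316 0.655 0.655 0.655 (by norm_num) (by norm_num)
    (by norm_num) (by norm_num) (by norm_num) (by norm_num) (by norm_num) node_peak node_peak
  obtain ⟨N₁, hN₁⟩ := eventually_atTop.mp (hcore (s / 2) (by linarith) (by linarith)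
    (mu 0.655 + s / 2))
  have hpos : 0 < mu 0.655 + s / 2 := by
    have : 0 < mu 0.655 := mu_pos (by norm_num)
    linarith
  rw [frequently_atTop]
  intro N
  obtain ⟨a, ha⟩ := pow_unbounded_of_one_lt ((mu 0.655 + s / 2) * (max N N₁ + 1)) (one_lt_two)
  have hT : 0 ≤ (2 * 2 ^ a - 1 : ℝ) / (mu 0.655 + s / 2) := by
    apply div_nonneg _ hpos.le
    have : (1 : ℝ) ≤ 2 ^ a := one_le_pow₀ (by norm_num)
    linarith
  have hf1 := Nat.floor_le hT
  have hf2 := Nat.lt_floor_add_one ((2 * 2 ^ a - 1 : ℝ) / (mu 0.655 + s / 2))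
  obtain ⟨m, hm⟩ : ∃ m : ℕ, m = ⌊(2 * 2 ^ a - 1 : ℝ) / (mu 0.655 + s / 2)⌋₊ := ⟨_, rfl⟩
  rw [← hm] at hf1 hf2
  rw [le_div_iff₀ hpos] at hf1
  rw [div_lt_iff₀ hpos] at hf2
  have h1a : (1 : ℝ) ≤ 2 ^ a := one_le_pow₀ (by norm_num)
  have hmN : max N N₁ ≤ m := by
    have h5 : ((max N N₁ : ℕ) : ℝ) < m := by
      have : (mu 0.655 + s / 2) * ((max N N₁ : ℕ) + 1 : ℝ) < (m + 1) * (mu 0.655 + s / 2) := by
        have ha' : (mu 0.655 + s / 2) * (((max N N₁ : ℕ) : ℝ) + 1) < 2 ^ a := by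
          exact_mod_cast ha
        linarith
      nlinarith
    exact_mod_cast h5.le
  refine ⟨m, le_trans (le_max_left _ _) hmN, ?_⟩
  refine hN₁ m (le_trans (le_max_right _ _) hmN) m 0 a _ (by simp) ?_ ?_ (exists_coloring m)
  · push_cast; linarith
  · push_cast; linarith

end PoolChi
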