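import Pool.Agent.Lib.MP_d0bb7d_co.Defs

namespace PoolChi
open Finset Polynomial

section General
variable {R : Type*} [CommRing R] (y : R)

/-- Gaussian binomial coefficients at `y`. -/
def gb : ℕ → ℕ → R
  | 0, 0 => 1
  | 0, _ + 1 => 0
  | a + 1, 0 => gb a 0
  | a + 1, j + 1 => gb a j + y ^ (j + 1) * gb a (j + 1)

/-- Newton polynomials `∏_{i<j} (y^b - y^i)`. -/
def newt (j b : ℕ) : R := ∏ i ∈ range j, (y ^ b - y ^ i)

theorem gb_eq_zero : ∀ (a j : ℕ), a < j → gb y a j = 0 := by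
  intro a
  induction a with
  | zero =>
    intro j hj
    cases j with
    | zero => omega
    | succ j => simp [gb]
  | succ a ih =>
    intro j hj
    cases j with
    | zero => omega
    | succ j =>
      simp only [gb]
      rw [ih j (by omega), ih (j + 1) (by omega)]
      ring

theorem newt_succ (j b : ℕ) : y ^ b * newt y j b = newt y (j + 1) b + y ^ j * newt y j b := by
  unfold newt
  rw [prod_range_succ]
  ring

theorem newton (b : ℕ) : ∀ (a N : ℕ), a < N →
    ∑ j ∈ range N, gb y a j * newt y j b = y ^ (a * b) := by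
  intro a
  induction a with
  | zero =>
    intro N hN
    obtain ⟨M, rfl⟩ : ∃ M, N = M + 1 := ⟨N - 1, by omega⟩
    rw [sum_range_succ']
    simp [gb, newt]
  | succ a ih =>
    intro N hN
    obtain ⟨M, rfl⟩ : ∃ M, N = M + 1 := ⟨N - 1, by omega⟩
    have h1 := ih (M + 1) (by omega)
    have h2 : y ^ ((a + 1) * b) = y ^ b * y ^ (a * b) := by
      rw [← pow_add]; congr 1; ring
    rw [h2, ← h1, mul_sum]
    have h3 : ∀ j ∈ range (M + 1), y ^ b * (gb y a j * newt y j b)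
        = gb y a j * newt y (j + 1) b + y ^ j * gb y a j * newt y j b := by
      intro j _
      have := newt_succ y j b
      calc y ^ b * (gb y a j * newt y j b) = gb y a j * (y ^ b * newt y j b) := by ring
        _ = gb y a j * newt y (j + 1) b + y ^ j * gb y a j * newt y j b := by rw [this]; ring
    rw [sum_congr rfl h3, sum_add_distrib, sum_range_succ (fun j => gb y a j * newt y (j + 1) b),
      sum_range_succ' (fun j => y ^ j * gb y a j * newt y j b),
      sum_range_succ' (fun j => gb y (a + 1) j * newt y j b), gb_eq_zero y a M (by omega)]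
    have h4 : ∀ j ∈ range M, gb y (a + 1) (j + 1) * newt y (j + 1) b
        = gb y a j * newt y (j + 1) b + y ^ (j + 1) * gb y a (j + 1) * newt y (j + 1) b := by
      intro j _
      simp only [gb]
      ring
    rw [sum_congr rfl h4, sum_add_distrib]
    simp only [gb]
    ring

end General

/-- The exponent `2^(v_2 m)` for `m < 8`. -/
def ee (m : ℕ) : ℕ := if 4 ∣ m then 4 else if 2 ∣ m then 2 else 1

theorem X_pow_dvd (m : ℕ) : (X : (ZMod 2)[X]) ^ ee m ∣ (1 + X) ^ m - 1 := by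
  have key : ∀ v t : ℕ, (X : (ZMod 2)[X]) ^ (2 ^ v) ∣ (1 + X) ^ (2 ^ v * t) - 1 := by
    intro v t
    have h1 : ((1 : (ZMod 2)[X]) + X) ^ (2 ^ v) = 1 + X ^ (2 ^ v) := by
      rw [add_pow_char_pow, one_pow]
    rw [pow_mul, h1]
    have h2 := sub_dvd_pow_sub_pow ((1 : (ZMod 2)[X]) + X ^ (2 ^ v)) 1 t
    rw [one_pow] at h2
    have h3 : ((1 : (ZMod 2)[X]) + X ^ (2 ^ v)) - 1 = X ^ (2 ^ v) := by ring
    rw [h3] at h2
    exact h2
  unfold ee
  split_ifs with h4 h2
  · obtain ⟨t, rfl⟩ := h4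
    exact key 2 t
  · obtain ⟨t, rfl⟩ := h2
    simpa using key 1 t
  · simpa using key 0 m

theorem X_pow_dvd_sub (b i : ℕ) (h : i ≤ b) :
    (X : (ZMod 2)[X]) ^ ee (b - i) ∣ (1 + X) ^ b - (1 + X) ^ i := by
  have h1 : ((1 : (ZMod 2)[X]) + X) ^ b - (1 + X) ^ i
      = ((1 + X) ^ (b - i) - 1) * (1 + X) ^ i := by
    rw [sub_mul, one_mul, ← pow_add, Nat.sub_add_cancel h]
  rw [h1]
  exact (X_pow_dvd (b - i)).mul_right _

theorem wt_dvd (j b : Fin 7) :
    (X : (ZMod 2)[X]) ^ wt j ∣ newt (1 + X) (j : ℕ) (b : ℕ) := by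
  by_cases hjb : (b : ℕ) < (j : ℕ)
  · have h0 : newt (1 + X : (ZMod 2)[X]) (j : ℕ) (b : ℕ) = 0 := by
      unfold newt
      exact prod_eq_zero (mem_range.mpr hjb) (sub_self _)
    rw [h0]
    exact dvd_zero _
  · have h1 : ∏ i ∈ range (j : ℕ), (X : (ZMod 2)[X]) ^ ee ((b : ℕ) - i)
        ∣ newt (1 + X) (j : ℕ) (b : ℕ) := by
      unfold newt
      refine prod_dvd_prod_of_dvd _ _ fun i hi => ?_
      rw [mem_range] at hi
      exact X_pow_dvd_sub _ _ (by omega)
    refine dvd_trans ?_ h1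
    rw [prod_pow_eq_pow_sum]
    refine pow_dvd_pow _ ?_
    have key : ∀ j b : Fin 7, ¬ (b : ℕ) < (j : ℕ) →
        wt j ≤ ∑ i ∈ range (j : ℕ), ee ((b : ℕ) - i) := by
      decide
    exact key j b hjb

/-- Factorisation of the matrix `((1+X)^(a b))` over `F_2[X]`, with the orders `wt j`. -/
theorem exists_factor : ∃ (L U : Fin 7 → Fin 7 → (ZMod 2)[X]), ∀ a b : Fin 7,
    (1 + X : (ZMod 2)[X]) ^ ((a : ℕ) * (b : ℕ)) = ∑ j, L a j * (X ^ wt j * U j b) := by
  choose U hU using fun j b : Fin 7 => wt_dvd j b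
  refine ⟨fun a j => gb (1 + X) (a : ℕ) (j : ℕ), U, fun a b => ?_⟩
  have h := newton (1 + X : (ZMod 2)[X]) (b : ℕ) (a : ℕ) 7 a.isLt
  rw [← h, ← Fin.sum_univ_eq_sum_range
    (fun j => gb (1 + X : (ZMod 2)[X]) (a : ℕ) j * newt (1 + X) j (b : ℕ)) 7]
  refine sum_congr rfl fun j _ => ?_
  rw [hU j b]

end PoolChi
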