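import Pool.Agent.Lib.MP_d0bb7d_co.Rank

/-!
# Words of bounded budget: independent sets and colourings
-/

namespace PoolChi
open Finset

theorem cost_cast (b : Fin 7) : ((cost b : ℕ) : ℤ) = letter b * (2 * letter b - 1) := by
  fin_cases b <;> simp [cost, letter]

theorem cost_add (b c : Fin 7) :
    (letter b - letter c) ^ 2 ≤ ((cost b : ℕ) : ℤ) + ((cost c : ℕ) : ℤ) := by
  rw [cost_cast, cost_cast]
  have h : 0 ≤ (letter b + letter c) * (letter b + letter c - 1) := by
    rcases le_or_gt (letter b + letter c) 0 with h | h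
    · exact mul_nonneg_of_nonpos_of_nonpos h (by omega)
    · exact mul_nonneg (by omega) (by omega)
  nlinarith

theorem letter_injective : Function.Injective letter := by
  intro b c h
  unfold letter at h
  apply Fin.ext
  omega

theorem cast_eq (b : Fin 7) : (((b : ℕ)) : ℤ) = letter b + 3 := by
  unfold letter
  ring

theorem rev_cast (b : Fin 7) : (((Fin.rev b : Fin 7) : ℕ) : ℤ) = 3 - letter b := by
  unfold letter
  rw [Fin.val_rev]
  have := b.2
  omega

theorem letter_abs (b : Fin 7) : -3 ≤ letter b ∧ letter b ≤ 3 := by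
  unfold letter
  have := b.2
  omega

theorem pair_sum {n : ℕ} (v w : Fin n → Fin 7) (S R : ℤ)
    (hv : ∑ i, letter (v i) = S) (hw : ∑ i, letter (w i) = S)
    (hv2 : ∑ i, letter (v i) ^ 2 = R) (hw2 : ∑ i, letter (w i) ^ 2 = R) :
    2 * ((∑ i, (v i : ℕ) * (Fin.rev (w i) : ℕ) : ℕ) : ℤ)
      = 2 * (9 * n) - 2 * R + ∑ i, (letter (v i) - letter (w i)) ^ 2 := by
  have h1 : ((∑ i, (v i : ℕ) * (Fin.rev (w i) : ℕ) : ℕ) : ℤ)
      = 3 * ∑ i, letter (v i) - 3 * ∑ i, letter (w i) + 9 * n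
        - ∑ i, letter (v i) * letter (w i) := by
    push_cast
    have h2 : ∀ i, ((v i : ℕ) : ℤ) * (((Fin.rev (w i) : Fin 7) : ℕ) : ℤ)
        = 3 * letter (v i) - 3 * letter (w i) + 9 - letter (v i) * letter (w i) := by
      intro i
      rw [cast_eq, rev_cast]
      ring
    rw [Finset.sum_congr rfl fun i _ => h2 i, Finset.sum_sub_distrib, Finset.sum_add_distrib,
      Finset.sum_sub_distrib, ← Finset.mul_sum, ← Finset.mul_sum]
    simp only [Finset.sum_const, Finset.card_univ, Fintype.card_fin, nsmul_eq_mul]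
    ring
  have h3 : ∑ i, (letter (v i) - letter (w i)) ^ 2
      = ∑ i, letter (v i) ^ 2 + ∑ i, letter (w i) ^ 2
        - 2 * ∑ i, letter (v i) * letter (w i) := by
    have h4 : ∀ i, (letter (v i) - letter (w i)) ^ 2
        = letter (v i) ^ 2 + letter (w i) ^ 2 - 2 * (letter (v i) * letter (w i)) := by
      intro i
      ring
    rw [Finset.sum_congr rfl fun i _ => h4 i, Finset.sum_sub_distrib, Finset.sum_add_distrib,
      ← Finset.mul_sum]
  rw [h1, h3, hv, hw, hv2, hw2]
  ring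

theorem dist_sq_le {n : ℕ} (v w : Fin n → Fin 7) (t : ℕ) (hv : ∑ i, cost (v i) ≤ t)
    (hw : ∑ i, cost (w i) ≤ t) : ∑ i, (letter (v i) - letter (w i)) ^ 2 ≤ 2 * (t : ℤ) := by
  have h1 : ∑ i, (letter (v i) - letter (w i)) ^ 2
      ≤ ((∑ i, cost (v i) : ℕ) : ℤ) + ((∑ i, cost (w i) : ℕ) : ℤ) := by
    push_cast
    rw [← Finset.sum_add_distrib]
    exact Finset.sum_le_sum fun i _ => cost_add (v i) (w i)
  have h2 : ((∑ i, cost (v i) : ℕ) : ℤ) ≤ t := by exact_mod_cast hv
  have h3 : ((∑ i, cost (w i) : ℕ) : ℤ) ≤ t := by exact_mod_cast hw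
  linarith

theorem dist_sq_pos {n : ℕ} {v w : Fin n → Fin 7} (h : v ≠ w) :
    0 < ∑ i, (letter (v i) - letter (w i)) ^ 2 := by
  obtain ⟨i, hi⟩ := Function.ne_iff.mp h
  have h1 : 0 < (letter (v i) - letter (w i)) ^ 2 := by
    have : letter (v i) - letter (w i) ≠ 0 := by
      intro h0
      exact hi (letter_injective (by omega))
    positivity
  exact lt_of_lt_of_le h1
    (Finset.single_le_sum (f := fun i => (letter (v i) - letter (w i)) ^ 2)
      (fun j _ => sq_nonneg _) (Finset.mem_univ i))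

/-- Words of bounded budget, fixed sum and fixed square sum, no two at squared distance `2 q`. -/
theorem indep_bound (n a : ℕ) (I : Finset (Fin n → Fin 7)) (S R : ℤ)
    (hc : ∀ v ∈ I, ∑ i, cost (v i) ≤ 2 * 2 ^ a - 1)
    (hS : ∀ v ∈ I, ∑ i, letter (v i) = S)
    (hR : ∀ v ∈ I, ∑ i, letter (v i) ^ 2 = R)
    (hI : ∀ v ∈ I, ∀ w ∈ I, ∑ i, (letter (v i) - letter (w i)) ^ 2 ≠ 2 * 2 ^ a) :
    I.card ≤ 2 ^ a * NA n (2 ^ a - 1) := by
  rcases I.eq_empty_or_nonempty with hE | ⟨v0, hv0⟩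
  · rw [hE]
    simp
  have hR0 : 0 ≤ R := by
    rw [← hR v0 hv0]
    exact Finset.sum_nonneg fun i _ => sq_nonneg _
  obtain ⟨R', rfl⟩ := Int.eq_ofNat_of_zero_le hR0
  have hq : 1 ≤ 2 ^ a := Nat.one_le_two_pow
  obtain ⟨q', hq'⟩ : ∃ q', 2 ^ a = q' + 1 := ⟨2 ^ a - 1, by omega⟩
  -- the value of the exponent
  have key : ∀ v ∈ I, ∀ w ∈ I,
      2 * (((R' + 9 * n * q' + q') + ∑ i, (v i : ℕ) * (Fin.rev (w i) : ℕ) + 1 : ℕ) : ℤ)
        = 2 * ((9 * n + 1) * (2 ^ a : ℤ)) + ∑ i, (letter (v i) - letter (w i)) ^ 2 := by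
    intro v hv w hw
    have h := pair_sum v w S R' (hS v hv) (hS w hw) (hR v hv) (hR w hw)
    have hqz : (2 ^ a : ℤ) = q' + 1 := by exact_mod_cast hq'
    rw [hqz]
    push_cast at h ⊢
    linarith
  apply rank_bound n a (R' + 9 * n * q' + q') I
  · intro v hv
    have h := key v hv v hv
    have h0 : ∑ i, (letter (v i) - letter (v i)) ^ 2 = 0 := by simp
    rw [h0, add_zero] at h
    have h1 : (((R' + 9 * n * q' + q') + ∑ i, (v i : ℕ) * (Fin.rev (v i) : ℕ) + 1 : ℕ) : ℤ)
        = (((9 * n + 1) * 2 ^ a : ℕ) : ℤ) := by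
      push_cast at h ⊢
      linarith
    have h2 : (R' + 9 * n * q' + q') + ∑ i, (v i : ℕ) * (Fin.rev (v i) : ℕ) + 1
        = (9 * n + 1) * 2 ^ a := by exact_mod_cast h1
    rw [h2]
    exact dvd_mul_left _ _
  · intro v hv w hw hvw hdvd
    have h := key v hv w hw
    obtain ⟨c, hc'⟩ := hdvd
    rw [hc'] at h
    have hpos := dist_sq_pos hvw
    have hle := dist_sq_le v w (2 * 2 ^ a - 1) (hc v hv) (hc w hw)
    have hne := hI v hv w hw
    have hcast : ((2 * 2 ^ a - 1 : ℕ) : ℤ) = 2 * 2 ^ a - 1 := by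
      have : 1 ≤ 2 * 2 ^ a := by omega
      push_cast [Nat.cast_sub this]
      ring
    rw [hcast] at hle
    push_cast at h
    set D := ∑ i, (letter (v i) - letter (w i)) ^ 2 with hD
    set Q : ℤ := 2 ^ a with hQ
    have hQ1 : 1 ≤ Q := by
      rw [hQ]
      exact_mod_cast hq
    -- D = 2 Q (c - 9 n - 1)
    have hDe : D = 2 * (Q * ((c : ℤ) - (9 * n + 1))) := by linarith
    set e : ℤ := (c : ℤ) - (9 * n + 1) with he
    have he0 : 0 < e := by
      by_contra hneg
      push Not at hneg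
      have : Q * e ≤ 0 := mul_nonpos_of_nonneg_of_nonpos (by linarith) hneg
      linarith
    have he2 : e < 2 := by
      by_contra hge
      push Not at hge
      have : Q * 2 ≤ Q * e := mul_le_mul_of_nonneg_left hge (by linarith)
      linarith
    have he1 : e = 1 := by omega
    rw [he1, mul_one] at hDe
    exact hne hDe

/-- The point of space belonging to a word. -/
noncomputable def point (n a : ℕ) (v : Fin n → Fin 7) : EuclideanSpace ℝ (Fin n) :=
  WithLp.toLp 2 fun i => (letter (v i) : ℝ) / Real.sqrt (2 * 2 ^ a)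

theorem dist_point (n a : ℕ) (v w : Fin n → Fin 7)
    (h : ∑ i, (letter (v i) - letter (w i)) ^ 2 = 2 * 2 ^ a) :
    dist (point n a v) (point n a w) = 1 := by
  rw [EuclideanSpace.dist_eq]
  have hq : (0 : ℝ) < 2 * 2 ^ a := by positivity
  have h1 : ∑ i, dist ((point n a v) i) ((point n a w) i) ^ 2 = 1 := by
    have h2 : ∀ i, dist ((point n a v) i) ((point n a w) i) ^ 2
        = ((letter (v i) : ℝ) - (letter (w i) : ℝ)) ^ 2 / (2 * 2 ^ a) := by
      intro i
      rw [Real.dist_eq, sq_abs]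
      show ((letter (v i) : ℝ) / Real.sqrt (2 * 2 ^ a)
        - (letter (w i) : ℝ) / Real.sqrt (2 * 2 ^ a)) ^ 2 = _
      rw [← sub_div, div_pow, Real.sq_sqrt hq.le]
    rw [Finset.sum_congr rfl fun i _ => h2 i, ← Finset.sum_div, div_eq_one_iff_eq hq.ne']
    exact_mod_cast h
  rw [h1, Real.sqrt_one]

/-- Every proper colouring of the unit distance graph of `ℝ^n` with `k` colours satisfies: -/
theorem colour_bound (n a k : ℕ) (col : (Ndef2032f.unitDistanceGraph n).Coloring (Fin k)) :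
    NV n (2 * 2 ^ a - 1) ≤ (6 * n + 1) * (9 * n + 1) * k * (2 ^ a * NA n (2 ^ a - 1)) := by
  classical
  set s : Finset (Fin n → Fin 7) := univ.filter fun v : Fin n → Fin 7 =>
    ((∑ i, cost (v i) : ℕ) : ℝ) ≤ 2 * 2 ^ a - 1 with hs
  have hmem : ∀ v ∈ s, ∑ i, cost (v i) ≤ 2 * 2 ^ a - 1 := by
    intro v hv
    rw [hs, Finset.mem_filter] at hv
    have h1 : (((∑ i, cost (v i)) + 1 : ℕ) : ℝ) ≤ ((2 * 2 ^ a : ℕ) : ℝ) := by
      push_cast
      have := hv.2
      push_cast at this
      linarith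
    have h2 : (∑ i, cost (v i)) + 1 ≤ 2 * 2 ^ a := by exact_mod_cast h1
    omega
  set T : Finset (ℤ × ℤ × Fin k) :=
    (Finset.Icc (-(3 * n : ℤ)) (3 * n)) ×ˢ ((Finset.Icc (0 : ℤ) (9 * n)) ×ˢ univ) with hT
  set f : (Fin n → Fin 7) → ℤ × ℤ × Fin k := fun v =>
    (∑ i, letter (v i), ∑ i, letter (v i) ^ 2, col (point n a v)) with hf
  have hmaps : ∀ v ∈ s, f v ∈ T := by
    intro v _
    rw [hT, hf]
    simp only [Finset.mem_product, Finset.mem_Icc, Finset.mem_univ, and_true]
    refine ⟨⟨?_, ?_⟩, ?_, ?_⟩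
    · have : ∑ i : Fin n, (-3 : ℤ) ≤ ∑ i, letter (v i) :=
        Finset.sum_le_sum fun i _ => (letter_abs (v i)).1
      simp only [Finset.sum_const, Finset.card_univ, Fintype.card_fin, nsmul_eq_mul] at this
      linarith
    · have : ∑ i, letter (v i) ≤ ∑ i : Fin n, (3 : ℤ) :=
        Finset.sum_le_sum fun i _ => (letter_abs (v i)).2
      simp only [Finset.sum_const, Finset.card_univ, Fintype.card_fin, nsmul_eq_mul] at this
      linarith
    · exact Finset.sum_nonneg fun i _ => sq_nonneg _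
    · have : ∑ i, letter (v i) ^ 2 ≤ ∑ i : Fin n, (9 : ℤ) := by
        refine Finset.sum_le_sum fun i _ => ?_
        have h1 := letter_abs (v i)
        nlinarith [h1.1, h1.2]
      simp only [Finset.sum_const, Finset.card_univ, Fintype.card_fin, nsmul_eq_mul] at this
      linarith
  have hfib : ∀ b ∈ T, (s.filter fun v => f v = b).card ≤ 2 ^ a * NA n (2 ^ a - 1) := by
    rintro ⟨S, R, c⟩ _
    apply indep_bound n a (s.filter fun v => f v = (S, R, c)) S R
    · intro v hv
      exact hmem v (Finset.mem_filter.mp hv).1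
    · intro v hv
      exact congrArg Prod.fst (Finset.mem_filter.mp hv).2
    · intro v hv
      exact congrArg (fun p => p.2.1) (Finset.mem_filter.mp hv).2
    · intro v hv w hw h
      have hv' : col (point n a v) = c :=
        congrArg (fun p => p.2.2) (Finset.mem_filter.mp hv).2
      have hw' : col (point n a w) = c :=
        congrArg (fun p => p.2.2) (Finset.mem_filter.mp hw).2
      have hadj : (Ndef2032f.unitDistanceGraph n).Adj (point n a v) (point n a w) :=
        dist_point n a v w h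
      exact col.valid hadj (hv'.trans hw'.symm)
  have hmain := Finset.card_le_mul_card_image_of_maps_to hmaps _ hfib
  have hcardT : T.card = (6 * n + 1) * ((9 * n + 1) * k) := by
    have e1 : ((3 * n : ℤ) + 1 - -(3 * n : ℤ)).toNat = 6 * n + 1 := by omega
    have e2 : ((9 * n : ℤ) + 1 - 0).toNat = 9 * n + 1 := by omega
    rw [hT, Finset.card_product, Finset.card_product, Int.card_Icc, Int.card_Icc,
      Finset.card_univ, Fintype.card_fin, e1, e2]
  unfold NV
  calc s.card ≤ 2 ^ a * NA n (2 ^ a - 1) * T.card := hmain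
    _ = (6 * n + 1) * (9 * n + 1) * k * (2 ^ a * NA n (2 ^ a - 1)) := by
        rw [hcardT]
        ring

end PoolChi
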