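import Pool.Agent.Lib.MP_d0bb7d_co.Defs

namespace PoolChi
open Finset Polynomial

/-- Coefficient of `X^(q-1)`, `q = 2^a`, in `(1+X)^m` over the field with two elements. -/
theorem coeff_one_add_X_pow (a m : ℕ) :
    ((1 + X : (ZMod 2)[X]) ^ m).coeff (2 ^ a - 1) = if 2 ^ a ∣ m + 1 then 1 else 0 := by
  have hq : 0 < 2 ^ a := by positivity
  obtain ⟨q, hqdef⟩ : ∃ q, q = 2 ^ a := ⟨_, rfl⟩
  have hm : m = q * (m / q) + m % q := (Nat.div_add_mod m q).symm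
  have hr : m % q < q := Nat.mod_lt _ (hqdef ▸ hq)
  rw [← hqdef]
  obtain ⟨u, hu⟩ : ∃ u, u = m / q := ⟨_, rfl⟩
  obtain ⟨r, hr'⟩ : ∃ r, r = m % q := ⟨_, rfl⟩
  rw [← hu, ← hr'] at hm
  rw [← hr'] at hr
  have h1 : (1 + X : (ZMod 2)[X]) ^ q = 1 + X ^ q := by
    rw [hqdef, add_pow_char_pow, one_pow]
  have h2 : ∃ W : (ZMod 2)[X], (1 + X ^ q : (ZMod 2)[X]) ^ u = 1 + X ^ q * W := by
    have : (X ^ q : (ZMod 2)[X]) ∣ (1 + X ^ q) ^ u - 1 := by
      have := sub_dvd_pow_sub_pow (1 + X ^ q : (ZMod 2)[X]) 1 u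
      rwa [one_pow, add_sub_cancel_left] at this
    obtain ⟨W, hW⟩ := this
    exact ⟨W, by rw [← hW]; ring⟩
  obtain ⟨W, hW⟩ := h2
  have hq0 : 0 < q := hqdef ▸ hq
  rw [hm, pow_add, pow_mul, h1, hW, add_mul, one_mul, coeff_add, mul_assoc, coeff_X_pow_mul',
    if_neg (by omega), add_zero, Polynomial.coeff_one_add_X_pow]
  rcases Nat.lt_or_ge r (q - 1) with h | h
  · rw [Nat.choose_eq_zero_of_lt h, if_neg, Nat.cast_zero]
    intro hd
    rw [add_assoc] at hd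
    have := (Nat.dvd_add_right (Dvd.intro u rfl)).mp hd
    have := Nat.le_of_dvd (by omega) this
    omega
  · have : r = q - 1 := by omega
    rw [this, Nat.choose_self, if_pos, Nat.cast_one]
    rw [add_assoc, Nat.sub_add_cancel hq0]
    exact Dvd.intro (u + 1) (by ring)

end PoolChi
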