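import Pool.Agent.Lib.MP_d0bb7d_co.Lucas
import Pool.Agent.Lib.MP_d0bb7d_co.Gauss

namespace PoolChi
open Finset Polynomial

/-- A factorisation of the identity matrix through an index set bounds the size. -/
theorem card_le_of_factor {ι τ : Type*} [DecidableEq ι] (I : Finset ι) (T : Finset τ)
    (F G : τ → ι → ZMod 2)
    (h : ∀ v ∈ I, ∀ w ∈ I, ∑ t ∈ T, F t v * G t w = if v = w then 1 else 0) :
    I.card ≤ T.card := by
  classical
  let P : Matrix I T (ZMod 2) := fun v t => F t v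
  let Q : Matrix T I (ZMod 2) := fun t w => G t w
  have hPQ : P * Q = 1 := by
    ext v w
    rw [Matrix.mul_apply, Matrix.one_apply]
    have := h v v.2 w w.2
    rw [← Finset.sum_coe_sort] at this
    rw [this]
    simp only [Subtype.ext_iff]
  have h1 : (P * Q).rank ≤ P.rank := Matrix.rank_mul_le_left P Q
  have h2 : P.rank ≤ Fintype.card T := Matrix.rank_le_card_width P
  rw [hPQ, Matrix.rank_one] at h1
  rw [Fintype.card_coe] at h1 h2
  omega

/-- The rank bound: a family whose Lucas matrix is the identity is small. -/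
theorem rank_bound (n a K : ℕ) (I : Finset (Fin n → Fin 7))
    (h1 : ∀ v ∈ I, 2 ^ a ∣ K + ∑ i, (v i : ℕ) * (Fin.rev (v i) : ℕ) + 1)
    (h2 : ∀ v ∈ I, ∀ w ∈ I, v ≠ w → ¬ 2 ^ a ∣ K + ∑ i, (v i : ℕ) * (Fin.rev (w i) : ℕ) + 1) :
    I.card ≤ 2 ^ a * NA n (2 ^ a - 1) := by
  obtain ⟨L, U, hLU⟩ := exists_factor
  have hq : 0 < 2 ^ a := by positivity
  let good : Finset (Fin n → Fin 7) :=
    univ.filter fun α : Fin n → Fin 7 => ∑ i, wt (α i) ≤ 2 ^ a - 1
  let A : (Fin n → Fin 7) → (Fin n → Fin 7) → (ZMod 2)[X] :=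
    fun α v => (1 + X) ^ K * ∏ i, L (v i) (α i)
  let B : (Fin n → Fin 7) → (Fin n → Fin 7) → (ZMod 2)[X] :=
    fun α w => ∏ i, (X ^ wt (α i) * U (α i) (Fin.rev (w i)))
  have hprod : ∀ v w : Fin n → Fin 7,
      (1 + X : (ZMod 2)[X]) ^ (K + ∑ i, (v i : ℕ) * (Fin.rev (w i) : ℕ)) =
        ∑ α : Fin n → Fin 7, A α v * B α w := by
    intro v w
    rw [pow_add, ← prod_pow_eq_pow_sum]
    have e : ∏ i, (1 + X : (ZMod 2)[X]) ^ ((v i : ℕ) * (Fin.rev (w i) : ℕ)) =
        ∏ i, ∑ j, L (v i) j * (X ^ wt j * U j (Fin.rev (w i))) :=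
      prod_congr rfl fun i _ => hLU (v i) (Fin.rev (w i))
    rw [e, prod_univ_sum, Fintype.piFinset_univ, mul_sum]
    apply sum_congr rfl
    intro α _
    rw [prod_mul_distrib, mul_assoc]
  have hB : ∀ α w, ∀ j, α ∉ good → j ≤ 2 ^ a - 1 → (B α w).coeff j = 0 := by
    intro α w j hα hj
    have hα' : ¬ ∑ i, wt (α i) ≤ 2 ^ a - 1 := by
      intro hc
      exact hα (mem_filter.mpr ⟨mem_univ _, hc⟩)
    have e : B α w = X ^ (∑ i, wt (α i)) * ∏ i, U (α i) (Fin.rev (w i)) := by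
      rw [← prod_pow_eq_pow_sum, ← prod_mul_distrib]
    rw [e, coeff_X_pow_mul', if_neg (by omega)]
  have hM : ∀ v w : Fin n → Fin 7,
      ((1 + X : (ZMod 2)[X]) ^ (K + ∑ i, (v i : ℕ) * (Fin.rev (w i) : ℕ))).coeff (2 ^ a - 1) =
        ∑ t ∈ good ×ˢ range (2 ^ a), (A t.1 v).coeff t.2 * (B t.1 w).coeff (2 ^ a - 1 - t.2) := by
    intro v w
    rw [hprod, finsetSum_coeff, sum_product]
    rw [← sum_subset (subset_univ good)]
    · apply sum_congr rfl
      intro α _
      rw [coeff_mul, Nat.sum_antidiagonal_eq_sum_range_succ_mk, Nat.succ_eq_add_one,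
        Nat.sub_add_cancel hq]
    · intro α _ hα
      rw [coeff_mul]
      apply sum_eq_zero
      intro p hp
      rw [HasAntidiagonal.mem_antidiagonal] at hp
      rw [hB α w p.2 hα (by omega), mul_zero]
  have hcard := card_le_of_factor I (good ×ˢ range (2 ^ a))
    (fun t v => (A t.1 v).coeff t.2) (fun t w => (B t.1 w).coeff (2 ^ a - 1 - t.2)) (by
      intro v hv w hw
      rw [← hM, coeff_one_add_X_pow]
      by_cases hvw : v = w
      · subst hvw
        rw [if_pos (h1 v hv), if_pos rfl]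
      · rw [if_neg (h2 v hv w hw hvw), if_neg hvw])
  rw [card_product, card_range, mul_comm] at hcard
  exact hcard

end PoolChi
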