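import Pool.Agent.Lib.MP_3884c4_co.Vol

/-!
# Upper bound for the chromatic number of the space: the two geometric facts
-/

set_option autoImplicit false

namespace Pool.Agent.Lib.MP_d0bb7d_co.Up

open Pool.Agent.Lib.MP_3884c4_co

section Inner

variable {E : Type} [NormedAddCommGroup E] [InnerProductSpace ℝ E]

/-- Two points in the cells of different centres (their difference is `w`, the difference of the
centres is `z`) have distance larger than `D`. -/
theorem separation {D : ℝ} {u v w z : E} (hz : z ≠ 0) (hzw : z = u - v - w)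
    (h1 : D * ‖z‖ < ‖z - u‖ ^ 2 - ‖u‖ ^ 2) (h2 : D * ‖z‖ < ‖z + v‖ ^ 2 - ‖v‖ ^ 2) :
    D < ‖w‖ := by
  have hz0 : 0 < ‖z‖ := norm_pos_iff.2 hz
  rw [norm_sub_sq_real] at h1
  rw [norm_add_sq_real] at h2
  have h3 : inner ℝ z w = - ‖z‖ ^ 2 + inner ℝ z u - inner ℝ z v := by
    have : w = -z + u - v := by rw [hzw]; abel
    rw [this, inner_sub_right, inner_add_right, inner_neg_right, real_inner_self_eq_norm_sq]
  have h4 : -(‖z‖ * ‖w‖) ≤ inner ℝ z w := by
    have := abs_real_inner_le_norm z w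
    exact (abs_le.1 this).1
  have h5 : D * ‖z‖ < ‖w‖ * ‖z‖ := by
    nlinarith
  exact lt_of_mul_lt_mul_right h5 hz0.le

/-- `3√3/4` -/
noncomputable def c₀ : ℝ := 3 * √3 / 4

theorem c₀_sq : c₀ ^ 2 = 27 / 16 := by
  unfold c₀
  rw [div_pow, mul_pow, Real.sq_sqrt (by norm_num)]
  norm_num

theorem c₀_pos : 0 < c₀ := by
  unfold c₀
  positivity

theorem c₀_ge : 1 ≤ c₀ := by
  have h := c₀_sq
  have h0 := c₀_pos
  nlinarith

theorem c₀_le : c₀ ≤ 13 / 10 := by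
  have h := c₀_sq
  have h0 := c₀_pos
  nlinarith

/-- The forbidden positions of another centre are covered by `J + 1` balls. -/
theorem violator {D : ℝ} (hD : 0 < D) {w z : E} (hw : ‖w‖ ≤ D)
    (h : ‖z‖ ^ 2 - inner ℝ w z ≤ D * ‖z‖) {J : ℕ} (hJ : 0 < J) :
    ∃ k ∈ Finset.range (J + 1), ‖z - ((2 * k / J : ℝ)) • w‖ ≤ (c₀ + 2 / J) * D := by
  have hJ0 : (0 : ℝ) < J := by exact_mod_cast hJ
  have hz0 : 0 ≤ ‖z‖ := norm_nonneg z
  have hw0 : 0 ≤ ‖w‖ := norm_nonneg w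
  have hin : inner ℝ w z ≤ ‖w‖ * ‖z‖ := real_inner_le_norm w z
  rcases le_or_gt ‖z‖ D with hzD | hzD
  · refine ⟨0, by simp, ?_⟩
    have e : ((2 * ((0 : ℕ) : ℝ) / J : ℝ)) = 0 := by simp
    rw [e, zero_smul, sub_zero]
    have h1 := c₀_ge
    have h2 : (0 : ℝ) ≤ 2 / J := by positivity
    nlinarith
  · -- `‖z‖ > D`
    have hz2 : ‖z‖ ≤ 2 * D := by
      have h1 : ‖z‖ * ‖z‖ ≤ (2 * D) * ‖z‖ := by nlinarith
      exact le_of_mul_le_mul_right h1 (hD.trans hzD)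
    set τ : ℝ := ‖z‖ / D with hτ
    have hzτ : ‖z‖ = τ * D := by rw [hτ]; field_simp
    have hτ1 : 1 ≤ τ := by
      rw [hτ, le_div_iff₀ hD]
      linarith
    have hτ2 : τ ≤ 2 := by
      rw [hτ, div_le_iff₀ hD]
      linarith
    set κ : ℝ := τ * (τ - 1) with hκ
    have hκ0 : 0 ≤ κ := mul_nonneg (by linarith) (by linarith)
    have hκ2 : κ ≤ 2 := by nlinarith
    -- the exact centre
    have hmain : ‖z - κ • w‖ ≤ c₀ * D := by
      apply (sq_le_sq₀ (norm_nonneg _) (mul_nonneg c₀_pos.le hD.le)).1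
      have e0 : (c₀ * D) ^ 2 = 27 / 16 * D ^ 2 := by rw [mul_pow, c₀_sq]
      have e1 : ‖κ • w‖ ^ 2 = κ ^ 2 * ‖w‖ ^ 2 := by
        rw [norm_smul, Real.norm_of_nonneg hκ0, mul_pow]
      rw [norm_sub_sq_real, e1, e0, inner_smul_right, real_inner_comm]
      have h1 : D ^ 2 * κ ≤ inner ℝ w z := by
        have : D ^ 2 * κ = ‖z‖ ^ 2 - D * ‖z‖ := by
          rw [hzτ, hκ]
          ring
        linarith
      have h2 : ‖w‖ ^ 2 ≤ D ^ 2 := pow_le_pow_left₀ hw0 hw 2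
      have h3 : κ * (D ^ 2 * κ) ≤ κ * inner ℝ w z := mul_le_mul_of_nonneg_left h1 hκ0
      have h4 : κ ^ 2 * ‖w‖ ^ 2 ≤ κ ^ 2 * D ^ 2 := mul_le_mul_of_nonneg_left h2 (sq_nonneg κ)
      have h5 : τ ^ 2 - κ ^ 2 ≤ 27 / 16 := by
        have : 0 ≤ (τ - 3 / 2) ^ 2 * (τ ^ 2 + τ + 3 / 4) := by positivity
        rw [hκ]
        nlinarith
      have h6 : (τ ^ 2 - κ ^ 2) * D ^ 2 ≤ 27 / 16 * D ^ 2 :=
        mul_le_mul_of_nonneg_right h5 (sq_nonneg D)
      have h7 : ‖z‖ ^ 2 = τ ^ 2 * D ^ 2 := by rw [hzτ]; ring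
      rw [h7]
      nlinarith
    set k : ℕ := ⌊(J : ℝ) * κ / 2⌋₊ with hk
    have hk1 : (k : ℝ) ≤ J * κ / 2 := Nat.floor_le (by positivity)
    have hk2 : (J : ℝ) * κ / 2 < k + 1 := Nat.lt_floor_add_one _
    have hkJ : k ≤ J := by
      have : (k : ℝ) ≤ J := by nlinarith
      exact_mod_cast this
    refine ⟨k, Finset.mem_range.2 (by omega), ?_⟩
    have h8 : |κ - 2 * k / J| ≤ 2 / J := by
      have e : κ - 2 * k / J = (J * κ / 2 - k) * (2 / J) := by field_simp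
      rw [e, abs_mul, abs_of_nonneg (by positivity : (0 : ℝ) ≤ 2 / J)]
      have : |(J : ℝ) * κ / 2 - k| ≤ 1 := by
        rw [abs_le]
        constructor <;> linarith
      calc |(J : ℝ) * κ / 2 - k| * (2 / J) ≤ 1 * (2 / J) := by gcongr
        _ = 2 / J := one_mul _
    calc ‖z - ((2 * k / J : ℝ)) • w‖ = ‖(z - κ • w) + (κ - 2 * k / J) • w‖ := by
          rw [sub_smul]
          congr 1
          abel
      _ ≤ ‖z - κ • w‖ + ‖(κ - 2 * k / J) • w‖ := norm_add_le _ _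
      _ ≤ c₀ * D + 2 / J * D := by
          apply add_le_add hmain
          rw [norm_smul, Real.norm_eq_abs]
          exact mul_le_mul h8 hw hw0 (by positivity)
      _ = (c₀ + 2 / J) * D := by ring

end Inner

open Classical in
/-- The forbidden differences `z` of two centres for the position `u`. -/
noncomputable def viol (n S : ℕ) (D : ℝ) (u : Fin n → ℤ) : Finset (Fin n → ℤ) :=
  (zball n S (2 * D)).filter fun z => z ≠ 0 ∧ ‖toE z - toE u‖ ^ 2 - ‖toE u‖ ^ 2 ≤ D * ‖toE z‖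

theorem card_viol_le {n S J : ℕ} {D : ℝ} (hD : 0 < D) (hJ : 0 < J)
    (hS' : (c₀ + 2 / J) * D + √n ≤ S) {u : Fin n → ℤ} (hu : 2 * ‖toE u‖ ≤ D) :
    (viol n S D u).card ≤ (J + 1) * (zball n S ((c₀ + 2 / J) * D + √n)).card := by
  classical
  set c : ℕ → (Fin n → ℤ) := fun k => fl (((2 * k / J : ℝ)) • ((2 : ℝ) • toE u)) with hc
  have hsub : viol n S D u ⊆ (Finset.range (J + 1)).biUnion fun k =>
      (zball n S ((c₀ + 2 / J) * D + √n)).image (fun z => z + c k) := by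
    intro z hz
    unfold viol at hz
    rw [Finset.mem_filter] at hz
    obtain ⟨-, -, h⟩ := hz
    rw [norm_sub_sq_real] at h
    have h' : ‖toE z‖ ^ 2 - inner ℝ ((2 : ℝ) • toE u) (toE z) ≤ D * ‖toE z‖ := by
      rw [real_inner_smul_left, real_inner_comm]
      linarith
    have hw : ‖(2 : ℝ) • toE u‖ ≤ D := by
      rw [norm_smul, Real.norm_of_nonneg (by norm_num)]
      exact hu
    obtain ⟨k, hk, hk'⟩ := violator hD hw h' hJ
    rw [Finset.mem_biUnion]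
    refine ⟨k, hk, ?_⟩
    rw [Finset.mem_image]
    refine ⟨z - c k, ?_, by abel⟩
    rw [mem_zball hS', toE_sub]
    have h1 := norm_sub_fl (((2 * k / J : ℝ)) • ((2 : ℝ) • toE u))
    calc ‖toE z - toE (c k)‖
        = ‖(toE z - ((2 * k / J : ℝ)) • ((2 : ℝ) • toE u))
            + (((2 * k / J : ℝ)) • ((2 : ℝ) • toE u) - toE (c k))‖ := by
          congr 1
          abel
      _ ≤ ‖toE z - ((2 * k / J : ℝ)) • ((2 : ℝ) • toE u)‖
            + ‖((2 * k / J : ℝ)) • ((2 : ℝ) • toE u) - toE (c k)‖ := norm_add_le _ _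
      _ ≤ (c₀ + 2 / J) * D + √n := add_le_add hk' h1
  refine (Finset.card_le_card hsub).trans (Finset.card_biUnion_le.trans ?_)
  calc ∑ k ∈ Finset.range (J + 1), ((zball n S ((c₀ + 2 / J) * D + √n)).image (fun z => z + c k)).card
      ≤ ∑ _k ∈ Finset.range (J + 1), (zball n S ((c₀ + 2 / J) * D + √n)).card :=
        Finset.sum_le_sum fun k _ => Finset.card_image_le
    _ = (J + 1) * (zball n S ((c₀ + 2 / J) * D + √n)).card := by
        rw [Finset.sum_const, Finset.card_range, smul_eq_mul]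

end Pool.Agent.Lib.MP_d0bb7d_co.Up
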