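import Mathlib

/-!
# Upper bound for the chromatic number of the space: random centres in a finite group
-/

set_option autoImplicit false
set_option linter.unusedSectionVars false

namespace Pool.Agent.Lib.MP_d0bb7d_co.Up

open Finset

variable {G : Type} [AddCommGroup G] [Fintype G] [DecidableEq G]

/-- the number of functions with prescribed values on `T` -/
theorem card_fix {M : ℕ} (T : Finset G) (b : Fin M) :
    (M : ℝ) ^ T.card * ((univ.filter fun f : G → Fin M => ∀ x ∈ T, f x = b).card : ℝ)
      = (M : ℝ) ^ (Fintype.card G) := by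
  have h1 : (univ.filter fun f : G → Fin M => ∀ x ∈ T, f x = b)
      = Fintype.piFinset (fun x => if x ∈ T then ({b} : Finset (Fin M)) else univ) := by
    ext f
    simp only [Finset.mem_filter, Finset.mem_univ, true_and, Fintype.mem_piFinset]
    constructor
    · intro h x
      split_ifs with hx
      · rw [Finset.mem_singleton]
        exact h x hx
      · exact Finset.mem_univ _
    · intro h x hx
      have := h x
      rw [if_pos hx, Finset.mem_singleton] at this
      exact this
  have h2 : ∀ x : G, (if x ∈ T then ({b} : Finset (Fin M)) else univ).card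
      = if x ∈ T then 1 else M := by
    intro x
    split_ifs
    · rfl
    · simp
  rw [h1, Fintype.card_piFinset, Finset.prod_congr rfl (fun x _ => h2 x)]
  push_cast
  rw [Finset.prod_ite, Finset.prod_const_one, one_mul, Finset.prod_const, ← pow_add]
  congr 1
  have h3 : (univ.filter fun x : G => x ∉ T) = univ \ T := by
    ext x
    simp
  rw [h3, Finset.card_sdiff_of_subset (Finset.subset_univ _), Finset.card_univ]
  have := Finset.card_le_univ T
  omega

variable {ι : Type} [DecidableEq ι]

open Classical in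
/-- the set of the points of the cells of the centres `X` -/
noncomputable def cells (B : Finset ι) (a : ι → G) (W : ι → Finset G) (X : Finset G) : Finset G :=
  univ.filter fun γ => ∃ u ∈ B, γ - a u ∈ X ∧ ∀ w ∈ W u, γ - a u + w ∉ X

/-- There are centres such that the cells are large. -/
theorem exists_centres (B : Finset ι) (a : ι → G) (W : ι → Finset G) (V : ℕ) (hV : 0 < V)
    (hW : ∀ u ∈ B, (W u).card ≤ V) (h0 : ∀ u ∈ B, (0 : G) ∉ W u)
    (hd : ∀ u ∈ B, ∀ v ∈ B, u ≠ v → a u - a v ∈ W u) :
    ∃ X : Finset G, (Fintype.card G : ℝ) * B.card ≤ 4 * V * (cells B a W X).card := by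
  classical
  set M : ℕ := 2 * V with hM
  have hM0 : 0 < M := by omega
  set z : Fin M := ⟨0, hM0⟩ with hz
  set g : ℕ := Fintype.card G with hg
  have hMr : (0 : ℝ) < M := by exact_mod_cast hM0
  have hVr : (0 : ℝ) < V := by exact_mod_cast hV
  have hMV : (M : ℝ) = 2 * V := by rw [hM]; push_cast; ring
  set X : (G → Fin M) → Finset G := fun f => univ.filter fun x => f x = z with hX
  -- the good functions for `γ`, `u`
  set Sg : G → ι → Finset (G → Fin M) := fun γ u =>
    univ.filter fun f => f (γ - a u) = z ∧ ∀ w ∈ W u, f (γ - a u + w) ≠ z with hSg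
  have hcount : ∀ γ : G, ∀ u ∈ B, (M : ℝ) ^ g ≤ 4 * V * ((Sg γ u).card : ℝ) := by
    intro γ u hu
    set x := γ - a u with hx
    set P := univ.filter (fun f : G → Fin M => ∀ y ∈ ({x} : Finset G), f y = z) with hP
    set Q : G → Finset (G → Fin M) := fun w =>
      univ.filter (fun f : G → Fin M => ∀ y ∈ ({x, x + w} : Finset G), f y = z) with hQ
    have h1 : P ⊆ Sg γ u ∪ (W u).biUnion Q := by
      intro f hf
      rw [hP, Finset.mem_filter] at hf
      have hfx : f x = z := hf.2 x (Finset.mem_singleton_self x)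
      rw [Finset.mem_union]
      by_cases hc : ∀ w ∈ W u, f (x + w) ≠ z
      · left
        rw [hSg]
        simp only [Finset.mem_filter, Finset.mem_univ, true_and]
        exact ⟨hfx, hc⟩
      · right
        push Not at hc
        obtain ⟨w, hw, hfw⟩ := hc
        rw [Finset.mem_biUnion]
        refine ⟨w, hw, ?_⟩
        rw [hQ]
        simp only [Finset.mem_filter, Finset.mem_univ, true_and]
        intro y hy
        rw [Finset.mem_insert, Finset.mem_singleton] at hy
        rcases hy with rfl | rfl
        · exact hfx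
        · exact hfw
    have h2 : (P.card : ℝ) ≤ (Sg γ u).card + ∑ w ∈ W u, ((Q w).card : ℝ) := by
      have := (Finset.card_le_card h1).trans
        ((Finset.card_union_le _ _).trans (Nat.add_le_add_left Finset.card_biUnion_le _))
      exact_mod_cast this
    have h3 : (M : ℝ) * P.card = (M : ℝ) ^ g := by
      have := card_fix ({x} : Finset G) z
      rwa [Finset.card_singleton, pow_one] at this
    have h4 : ∀ w ∈ W u, (M : ℝ) ^ 2 * ((Q w).card : ℝ) = (M : ℝ) ^ g := by
      intro w hw
      have hne : x ≠ x + w := by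
        intro he
        have : w = 0 := by
          have h5 : x + 0 = x + w := by rw [add_zero]; exact he
          exact (add_left_cancel h5).symm
        rw [this] at hw
        exact h0 u hu hw
      have := card_fix ({x, x + w} : Finset G) z
      rwa [Finset.card_pair hne] at this
    have h5 : (M : ℝ) ^ 2 * ∑ w ∈ W u, ((Q w).card : ℝ) ≤ V * (M : ℝ) ^ g := by
      rw [Finset.mul_sum, Finset.sum_congr rfl h4, Finset.sum_const, nsmul_eq_mul]
      apply mul_le_mul_of_nonneg_right _ (by positivity)
      exact_mod_cast hW u hu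
    have h6 : (M : ℝ) ^ 2 * P.card ≤ (M : ℝ) ^ 2 * ((Sg γ u).card : ℝ) + V * (M : ℝ) ^ g := by
      have := mul_le_mul_of_nonneg_left h2 (by positivity : (0 : ℝ) ≤ (M : ℝ) ^ 2)
      rw [mul_add] at this
      linarith
    have h7 : (M : ℝ) ^ 2 * P.card = M * (M : ℝ) ^ g := by
      rw [pow_two, mul_assoc, h3]
    rw [h7, hMV] at h6
    have h8 : (V : ℝ) * (2 * V : ℝ) ^ g ≤ V * (4 * V * ((Sg γ u).card : ℝ)) := by
      have e1 : (2 * (V : ℝ)) ^ 2 * ((Sg γ u).card : ℝ) = V * (4 * V * ((Sg γ u).card : ℝ)) := by
        ring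
      rw [e1] at h6
      linarith
    rw [hMV]
    exact le_of_mul_le_mul_left h8 hVr
  -- disjointness
  have hdisj : ∀ γ : G, ∀ u ∈ B, ∀ v ∈ B, u ≠ v → Disjoint (Sg γ u) (Sg γ v) := by
    intro γ u hu v hv huv
    rw [Finset.disjoint_left]
    intro f hf hf'
    rw [hSg] at hf hf'
    simp only [Finset.mem_filter, Finset.mem_univ, true_and] at hf hf'
    apply hf.2 _ (hd u hu v hv huv)
    have e : γ - a u + (a u - a v) = γ - a v := by abel
    rw [e]
    exact hf'.1
  -- double counting
  have hdc : ∑ f : G → Fin M, ((cells B a W (X f)).card : ℝ)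
      = ∑ γ : G, ∑ u ∈ B, ((Sg γ u).card : ℝ) := by
    have e1 : ∀ γ : G, ∑ u ∈ B, ((Sg γ u).card : ℝ)
        = ((univ.filter fun f : G → Fin M => γ ∈ cells B a W (X f)).card : ℝ) := by
      intro γ
      have e2 : (univ.filter fun f : G → Fin M => γ ∈ cells B a W (X f)) = B.biUnion (Sg γ) := by
        ext f
        simp only [Finset.mem_filter, Finset.mem_univ, true_and, Finset.mem_biUnion, cells, hX,
          hSg]
      rw [e2, Finset.card_biUnion (fun u hu v hv huv => hdisj γ u hu v hv huv)]
      push_cast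
      rfl
    rw [Finset.sum_congr rfl (fun γ _ => e1 γ)]
    simp only [Finset.card_filter]
    have e3 : ∀ f : G → Fin M, ((cells B a W (X f)).card : ℝ)
        = ∑ γ : G, if γ ∈ cells B a W (X f) then (1 : ℝ) else 0 := by
      intro f
      rw [Finset.sum_ite_mem, Finset.univ_inter, Finset.sum_const, nsmul_eq_mul, mul_one]
    rw [Finset.sum_congr rfl (fun f _ => e3 f), Finset.sum_comm]
    apply Finset.sum_congr rfl
    intro γ _
    push_cast
    rfl
  by_contra hne
  push Not at hne
  have hlt : ∑ f : G → Fin M, (4 * V * ((cells B a W (X f)).card : ℝ))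
      < ∑ _f : G → Fin M, ((g : ℝ) * B.card) := by
    apply Finset.sum_lt_sum_of_nonempty
    · exact ⟨fun _ => z, Finset.mem_univ _⟩
    · intro f _
      exact hne (X f)
  rw [← Finset.mul_sum, hdc, Finset.sum_const, Finset.card_univ, nsmul_eq_mul,
    Fintype.card_fun, Fintype.card_fin] at hlt
  have hge : (g : ℝ) * (B.card * (M : ℝ) ^ g) ≤ 4 * V * ∑ γ : G, ∑ u ∈ B, ((Sg γ u).card : ℝ) := by
    rw [Finset.mul_sum]
    have e4 : (g : ℝ) * (B.card * (M : ℝ) ^ g) = ∑ _γ : G, (B.card * (M : ℝ) ^ g) := by
      rw [Finset.sum_const, Finset.card_univ, nsmul_eq_mul]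
    rw [e4]
    apply Finset.sum_le_sum
    intro γ _
    rw [Finset.mul_sum]
    have e5 : (B.card : ℝ) * (M : ℝ) ^ g = ∑ _u ∈ B, (M : ℝ) ^ g := by
      rw [Finset.sum_const, nsmul_eq_mul]
    rw [e5]
    exact Finset.sum_le_sum fun u hu => hcount γ u hu
  have e6 : ((M ^ g : ℕ) : ℝ) * ((g : ℝ) * B.card) = (g : ℝ) * (B.card * (M : ℝ) ^ g) := by
    push_cast
    ring
  rw [e6] at hlt
  linarith

end Pool.Agent.Lib.MP_d0bb7d_co.Up
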