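import Pool.Agent.Lib.MP_3884c4_co.Final
import Pool.Agent.Lib.MP_d0bb7d_co.UpGeom
import Pool.Agent.Lib.MP_d0bb7d_co.UpRandom

/-!
# Upper bound for the chromatic number of the space: assembly
-/

set_option autoImplicit false

namespace Pool.Agent.Lib.MP_d0bb7d_co.Up

open Finset Filter Pool.Agent.Lib.MP_3884c4_co

theorem toE_ne_zero {n : ℕ} {z : Fin n → ℤ} (hz : z ≠ 0) : toE z ≠ 0 := by
  intro h
  apply hz
  funext i
  have h1 := congrArg (fun y : EuclideanSpace ℝ (Fin n) => y i) h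
  simp only [toE_apply] at h1
  have h2 : ((z i : ℤ) : ℝ) = 0 := h1
  exact_mod_cast h2

theorem toE_zero {n : ℕ} : toE (0 : Fin n → ℤ) = 0 := by
  ext i
  simp

theorem far {n S : ℕ} {D : ℝ} (hS : 2 * D ≤ S) {u z : Fin n → ℤ} (hu : 2 * ‖toE u‖ ≤ D)
    (hz0 : z ≠ 0) (hz : z ∉ viol n S D u) :
    D * ‖toE z‖ < ‖toE z - toE u‖ ^ 2 - ‖toE u‖ ^ 2 := by
  by_contra h
  push Not at h
  apply hz
  unfold viol
  rw [Finset.mem_filter, mem_zball hS]
  refine ⟨?_, hz0, h⟩
  have hzp : 0 < ‖toE z‖ := norm_pos_iff.2 (toE_ne_zero hz0)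
  rw [norm_sub_sq_real] at h
  have h1 : inner ℝ (toE z) (toE u) ≤ ‖toE z‖ * ‖toE u‖ := real_inner_le_norm _ _
  have h2 : ‖toE z‖ * ‖toE z‖ ≤ (2 * D) * ‖toE z‖ := by nlinarith
  exact le_of_mul_le_mul_right h2 hzp

/-- the points of the cells in the discrete torus -/
noncomputable def cellSet (n S m : ℕ) (D r₀ : ℝ) (X : Finset (Fin n → ZMod m)) [NeZero m] :
    Finset (Fin n → ZMod m) :=
  cells (zball n S r₀) (red m) (fun u => (viol n S D u).image (red m)) X

theorem cells_dist {n S m : ℕ} [NeZero m] {D r₀ : ℝ} (hS : 2 * D ≤ S)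
    (hr : 2 * r₀ ≤ D) (hrS : r₀ ≤ S) {X : Finset (Fin n → ZMod m)} {γ₁ γ₂ : Fin n → ZMod m}
    (h1 : γ₁ ∈ cellSet n S m D r₀ X) (h2 : γ₂ ∈ cellSet n S m D r₀ X) {w : Fin n → ℤ}
    (hw : γ₁ - γ₂ = red m w) : ‖toE w‖ ≤ 2 * r₀ ∨ D < ‖toE w‖ := by
  classical
  unfold cellSet cells at h1 h2
  rw [Finset.mem_filter] at h1 h2
  obtain ⟨-, u, hu, hux, hu'⟩ := h1
  obtain ⟨-, v, hv, hvx, hv'⟩ := h2
  rw [mem_zball hrS] at hu hv
  by_cases hz : u - v - w = 0
  · left
    have e : w = u - v := (sub_eq_zero.1 hz).symm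
    rw [e, toE_sub]
    calc ‖toE u - toE v‖ ≤ ‖toE u‖ + ‖toE v‖ := norm_sub_le _ _
      _ ≤ 2 * r₀ := by linarith
  · right
    have hz' : -(u - v - w) ≠ 0 := neg_ne_zero.2 hz
    have hzu : u - v - w ∉ viol n S D u := by
      intro hmem
      have h3 := hu' _ (Finset.mem_image_of_mem (red m) hmem)
      apply h3
      have e : γ₁ - red m u + red m (u - v - w) = γ₂ - red m v := by
        rw [red_sub, red_sub, ← hw]
        abel
      rw [e]
      exact hvx
    have hzv : -(u - v - w) ∉ viol n S D v := by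
      intro hmem
      have h3 := hv' _ (Finset.mem_image_of_mem (red m) hmem)
      apply h3
      have e : γ₂ - red m v + red m (-(u - v - w)) = γ₁ - red m u := by
        rw [red_neg, red_sub, red_sub, ← hw]
        abel
      rw [e]
      exact hux
    have h4 := far hS (by linarith : 2 * ‖toE u‖ ≤ D) hz hzu
    have h5 := far hS (by linarith : 2 * ‖toE v‖ ≤ D) hz' hzv
    rw [toE_neg, norm_neg] at h5
    have h6 : ‖-toE (u - v - w) - toE v‖ = ‖toE (u - v - w) + toE v‖ := by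
      rw [← norm_neg]
      congr 1
      abel
    rw [h6] at h5
    exact separation (toE_ne_zero hz) (by rw [toE_sub, toE_sub]) h4 h5

theorem exists_cellSet {n S m J : ℕ} [NeZero m] {D r₀ : ℝ} (hD : 0 < D) (hJ : 0 < J)
    (hS : 2 * D ≤ S) (hS' : (c₀ + 2 / J) * D + √n ≤ S) (hr : 2 * r₀ ≤ D)
    (hm : 2 * S < m) :
    ∃ X : Finset (Fin n → ZMod m),
      (Fintype.card (Fin n → ZMod m) : ℝ) * (zball n S r₀).card
        ≤ 4 * ((J + 1) * (zball n S ((c₀ + 2 / J) * D + √n)).card) * (cellSet n S m D r₀ X).card := by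
  classical
  have hrS : r₀ ≤ S := by linarith
  have hr2 : r₀ ≤ 2 * D := by linarith
  have hcard : 0 < (zball n S ((c₀ + 2 / J) * D + √n)).card := by
    apply Finset.card_pos.2
    refine ⟨0, ?_⟩
    rw [mem_zball hS', toE_zero, norm_zero]
    have h1 := c₀_pos
    positivity
  have h := exists_centres (zball n S r₀) (red m) (fun u => (viol n S D u).image (red m))
    ((J + 1) * (zball n S ((c₀ + 2 / J) * D + √n)).card) (by positivity) ?_ ?_ ?_
  · obtain ⟨X, hX⟩ := h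
    refine ⟨X, ?_⟩
    unfold cellSet
    push_cast at hX
    convert hX using 2
  · intro u hu
    rw [mem_zball hrS] at hu
    exact Finset.card_image_le.trans (card_viol_le hD hJ hS' (by linarith))
  · intro u hu h0
    rw [Finset.mem_image] at h0
    obtain ⟨z, hz, hz0⟩ := h0
    unfold viol at hz
    rw [Finset.mem_filter] at hz
    apply hz.2.1
    have e : red m z = red m (0 : Fin n → ℤ) := by
      rw [hz0]
      funext i
      simp [red]
    refine red_inj hm hS hS hz.1 ?_ e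
    rw [mem_zball hS, toE_zero, norm_zero]
    linarith
  · intro u hu v hv huv
    rw [mem_zball hrS] at hu hv
    rw [← red_sub]
    apply Finset.mem_image_of_mem
    unfold viol
    rw [Finset.mem_filter, mem_zball hS]
    have h1 : ‖toE (u - v)‖ ≤ ‖toE u‖ + ‖toE v‖ := by
      rw [toE_sub]
      exact norm_sub_le _ _
    refine ⟨by linarith, sub_ne_zero.2 huv, ?_⟩
    have e : toE (u - v) - toE u = - toE v := by
      rw [toE_sub]
      abel
    rw [e, norm_neg]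
    have h2 : ‖toE v‖ ≤ ‖toE (u - v)‖ + ‖toE u‖ := by
      have e2 : toE v = toE u - toE (u - v) := by rw [toE_sub]; abel
      calc ‖toE v‖ = ‖toE u - toE (u - v)‖ := by rw [← e2]
        _ ≤ ‖toE u‖ + ‖toE (u - v)‖ := norm_sub_le _ _
        _ = _ := add_comm _ _
    have h3 : 0 ≤ ‖toE (u - v)‖ := norm_nonneg _
    have h4 : 0 ≤ ‖toE u‖ := norm_nonneg _
    have h5 : 0 ≤ ‖toE v‖ := norm_nonneg _
    have h6 : (‖toE v‖ - ‖toE u‖) * (‖toE v‖ + ‖toE u‖) ≤ ‖toE (u - v)‖ * D := by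
      rcases le_or_gt ‖toE v‖ ‖toE u‖ with h7 | h7
      · have : (‖toE v‖ - ‖toE u‖) * (‖toE v‖ + ‖toE u‖) ≤ 0 :=
          mul_nonpos_of_nonpos_of_nonneg (by linarith) (by linarith)
        have h8 : 0 ≤ ‖toE (u - v)‖ * D := by positivity
        linarith
      · exact mul_le_mul (by linarith) (by linarith) (by linarith) h3
    nlinarith

set_option maxHeartbeats 2000000 in
/-- The bound for fixed `n`. -/
theorem colouring_bound {n K J : ℕ} (hn : 1 ≤ n) (hK : 6 ≤ K) (hJ : 4 ≤ J) :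
    ∃ j : ℕ, (j : ℝ) ≤ 1 + 40 * (K + 2) * (J + 1) * n ^ 2
        * (2 * ((c₀ + 2 / J) * (K + 2) + 2) / (K - 5)) ^ n ∧
    ∃ c : EuclideanSpace ℝ (Fin n) → Fin j, ∀ x y, dist x y = 1 → c x ≠ c y := by
  classical
  have hn0 : (0 : ℝ) < n := by exact_mod_cast hn
  have hn1 : (1 : ℝ) ≤ n := by exact_mod_cast hn
  have hr0 : 0 < √(n : ℝ) := Real.sqrt_pos.2 hn0
  have hrn : √(n : ℝ) ≤ n := by
    rw [Real.sqrt_le_left hn0.le]
    nlinarith
  have hKr : (6 : ℝ) ≤ K := by exact_mod_cast hK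
  have hJr : (4 : ℝ) ≤ J := by exact_mod_cast hJ
  have hJ0 : (0 : ℝ) < J := by linarith
  have hJ2 : (2 : ℝ) / J ≤ 1 / 2 := by
    rw [div_le_iff₀ hJ0]
    linarith
  have hJ2' : (0 : ℝ) ≤ 2 / J := by positivity
  have hc := c₀_le
  have hc' := c₀_ge
  set D : ℝ := (K + 2) * √n with hDdef
  set r₀ : ℝ := (K - 3) / 2 * √n with hr₀def
  set S : ℕ := 2 * (K + 2) * n with hSdef
  set m : ℕ := 4 * S + 2 with hmdef
  have hSr : (S : ℝ) = 2 * (K + 2) * n := by
    rw [hSdef]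
    push_cast
    ring
  have hD0 : 0 < D := by positivity
  have hS : 2 * D ≤ S := by
    rw [hSr, hDdef]
    nlinarith
  have hS' : (c₀ + 2 / J) * D + √n ≤ S := by
    refine le_trans ?_ hS
    have h1 : (c₀ + 2 / J) * D ≤ (9 / 5) * D := mul_le_mul_of_nonneg_right (by linarith) hD0.le
    have h2 : √(n : ℝ) ≤ (1 / 5) * D := by
      rw [hDdef]
      nlinarith
    linarith
  have hr : 2 * r₀ ≤ D := by
    rw [hr₀def, hDdef]
    nlinarith
  have hr₀0 : 0 ≤ r₀ := by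
    rw [hr₀def]
    exact mul_nonneg (by linarith) hr0.le
  have hrS : r₀ ≤ S := by linarith
  have hm : 2 * S < m := by omega
  have : NeZero m := ⟨by omega⟩
  obtain ⟨X, hX⟩ := exists_cellSet (n := n) (S := S) (m := m) (J := J) hD0 (by omega) hS hS' hr hm
  set A := cellSet n S m D r₀ X with hAdef
  set g : ℝ := ((Fintype.card (Fin n → ZMod m) : ℕ) : ℝ) with hg
  set b : ℝ := ((zball n S r₀).card : ℝ) with hb
  set v : ℝ := ((zball n S ((c₀ + 2 / J) * D + √n)).card : ℝ) with hv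
  have hgm : g = (m : ℝ) ^ n := by
    rw [hg, Fintype.card_fun, ZMod.card, Fintype.card_fin]
    push_cast
    rfl
  have hg0 : 0 < g := by
    rw [hg]
    exact_mod_cast Fintype.card_pos
  have hb0 : 0 < b := by
    rw [hb]
    have : (0 : Fin n → ℤ) ∈ zball n S r₀ := by
      rw [mem_zball hrS, toE_zero, norm_zero]
      exact hr₀0
    exact_mod_cast Finset.card_pos.2 ⟨_, this⟩
  have hA0 : (0 : ℝ) < A.card := by
    by_contra hne
    have h1 : (A.card : ℝ) = 0 := le_antisymm (not_lt.1 hne) (Nat.cast_nonneg _)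
    rw [h1, mul_zero] at hX
    have : 0 < g * b := by positivity
    linarith
  -- the ratio of the numbers of integer points
  have hK5 : (0 : ℝ) < K - 5 := by linarith
  set Q : ℝ := (c₀ + 2 / J) * (K + 2) + 2 with hQ
  have hQ0 : 0 < Q := by
    have : 0 < c₀ + 2 / J := by linarith
    positivity
  have hratio : v ≤ b * (2 * Q / (K - 5)) ^ n := by
    have h1 := ratio (n := n) (S := S) (r := (c₀ + 2 / J) * D + √n) (r' := r₀)
      (by positivity) hS' (by rw [hr₀def]; nlinarith) hrS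
    have e1 : r₀ - √n = (K - 5) / 2 * √n := by rw [hr₀def]; ring
    have e2 : (c₀ + 2 / J) * D + √n + √n = Q * √n := by rw [hDdef, hQ]; ring
    rw [e1, e2, mul_pow, mul_pow] at h1
    have h1' : (v * ((K - 5) / 2) ^ n) * (√n) ^ n ≤ (b * Q ^ n) * (√n) ^ n := by
      calc (v * ((K - 5) / 2) ^ n) * (√n) ^ n = v * (((K - 5) / 2) ^ n * (√n) ^ n) := by ring
        _ ≤ b * (Q ^ n * (√n) ^ n) := h1
        _ = _ := by ring
    have h2 := le_of_mul_le_mul_right h1' (pow_pos hr0 n)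
    have h3 : (0 : ℝ) < ((K - 5) / 2) ^ n := by positivity
    have h4 : v ≤ b * Q ^ n / ((K - 5) / 2) ^ n := by
      rw [le_div_iff₀ h3]
      exact h2
    refine h4.trans (le_of_eq ?_)
    rw [mul_div_assoc, ← div_pow]
    congr 2
    field_simp
  have hlog0 : 0 ≤ Real.log g := by
    apply Real.log_nonneg
    rw [hg]
    exact_mod_cast Fintype.card_pos (α := Fin n → ZMod m)
  set j : ℕ := ⌊Real.log g * g / A.card⌋₊ + 1 with hj
  have hj1 : Real.log g * g < j * A.card := by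
    have := Nat.lt_floor_add_one (Real.log g * g / A.card)
    rw [div_lt_iff₀ hA0] at this
    rw [hj]
    push_cast
    exact this
  obtain ⟨f, hf⟩ := exists_cover A j hj1
  choose c hc2 using hf
  set t : ℝ := K * √n with ht
  have ht0 : 0 < t := by positivity
  refine ⟨j, ?_, fun y => c (red m (fl (t • y))), ?_⟩
  · -- the bound for the number of colours
    have h1 : (j : ℝ) ≤ Real.log g * g / A.card + 1 := by
      rw [hj]
      push_cast
      have := Nat.floor_le (by positivity : 0 ≤ Real.log g * g / A.card)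
      linarith
    have hlog : Real.log g ≤ 10 * (K + 2) * n ^ 2 := by
      rw [hgm, Real.log_pow]
      have hm0 : (0 : ℝ) < m := by exact_mod_cast (by omega : 0 < m)
      have h2 : Real.log m ≤ m := (Real.log_le_sub_one_of_pos hm0).trans (by linarith)
      have h3 : (m : ℝ) = 8 * (K + 2) * n + 2 := by
        rw [hmdef]
        push_cast
        rw [hSr]
        ring
      have h4 : (1 : ℝ) ≤ (K + 2) * n := one_le_mul_of_one_le_of_one_le (by linarith) hn1
      calc (n : ℝ) * Real.log m ≤ n * m := by gcongr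
        _ = n * (8 * (K + 2) * n + 2) := by rw [h3]
        _ ≤ n * (8 * (K + 2) * n + 2 * ((K + 2) * n)) := by
            apply mul_le_mul_of_nonneg_left _ hn0.le
            linarith
        _ = 10 * (K + 2) * n ^ 2 := by ring
    have h5 : g / A.card ≤ 4 * (J + 1) * (2 * Q / (K - 5)) ^ n := by
      rw [div_le_iff₀ hA0]
      apply le_of_mul_le_mul_right _ hb0
      calc g * b ≤ 4 * ((J + 1) * v) * A.card := hX
        _ ≤ 4 * ((J + 1) * (b * (2 * Q / (K - 5)) ^ n)) * A.card := by gcongr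
        _ = _ := by ring
    calc (j : ℝ) ≤ Real.log g * g / A.card + 1 := h1
      _ = 1 + Real.log g * (g / A.card) := by ring
      _ ≤ 1 + (10 * (K + 2) * n ^ 2) * (4 * (J + 1) * (2 * Q / (K - 5)) ^ n) := by
          gcongr
      _ = _ := by ring
  · intro x y hxy hcol
    have hx := hc2 (red m (fl (t • x)))
    have hy := hc2 (red m (fl (t • y)))
    have hcol' : c (red m (fl (t • x))) = c (red m (fl (t • y))) := hcol
    rw [hcol'] at hx
    set w : Fin n → ℤ := fl (t • x) - fl (t • y) with hw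
    have hdiff : (red m (fl (t • x)) - f (c (red m (fl (t • y)))))
        - (red m (fl (t • y)) - f (c (red m (fl (t • y))))) = red m w := by
      rw [hw, red_sub]
      abel
    have h1 := cells_dist hS hr hrS hx hy hdiff
    have hn2 : ‖t • x - t • y‖ = t := by
      rw [← smul_sub, norm_smul, ← dist_eq_norm, hxy, mul_one, Real.norm_of_nonneg ht0.le]
    have h2 := norm_sub_fl (t • x)
    have h3 := norm_sub_fl (t • y)
    have e : toE w = (t • x - t • y) - (t • x - toE (fl (t • x))) + (t • y - toE (fl (t • y))) := by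
      rw [hw, toE_sub]
      abel
    have h4 : ‖toE w‖ ≤ t + 2 * √n := by
      rw [e]
      calc ‖(t • x - t • y) - (t • x - toE (fl (t • x))) + (t • y - toE (fl (t • y)))‖
          ≤ ‖(t • x - t • y) - (t • x - toE (fl (t • x)))‖ + ‖t • y - toE (fl (t • y))‖ :=
            norm_add_le _ _
        _ ≤ ‖t • x - t • y‖ + ‖t • x - toE (fl (t • x))‖ + ‖t • y - toE (fl (t • y))‖ := by
            gcongr
            exact norm_sub_le _ _
        _ ≤ t + 2 * √n := by linarith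
    have h5 : t - 2 * √n ≤ ‖toE w‖ := by
      have e2 : t • x - t • y = toE w + (t • x - toE (fl (t • x))) - (t • y - toE (fl (t • y))) := by
        rw [e]
        abel
      have : ‖t • x - t • y‖ ≤ ‖toE w‖ + ‖t • x - toE (fl (t • x))‖ + ‖t • y - toE (fl (t • y))‖ := by
        calc ‖t • x - t • y‖
            = ‖toE w + (t • x - toE (fl (t • x))) - (t • y - toE (fl (t • y)))‖ := by rw [← e2]
          _ ≤ ‖toE w + (t • x - toE (fl (t • x)))‖ + ‖t • y - toE (fl (t • y))‖ := norm_sub_le _ _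
          _ ≤ _ := by
              gcongr
              exact norm_add_le _ _
      linarith
    rcases h1 with h6 | h6
    · have h7 : 2 * r₀ = (K - 3) * √n := by rw [hr₀def]; ring
      rw [h7] at h6
      rw [ht] at h5
      nlinarith
    · rw [hDdef] at h6
      rw [ht] at h4
      nlinarith

/-- `3√3/2` -/
theorem two_c₀ : 2 * c₀ = 3 * √3 / 2 := by
  unfold c₀
  ring

theorem eventually_colouring {ε : ℝ} (hε : 0 < ε) :
    ∀ᶠ n : ℕ in atTop, ∃ j : ℕ, (j : ℝ) ≤ (3 * √3 / 2 + ε) ^ n ∧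
      ∃ c : EuclideanSpace ℝ (Fin n) → Fin j, ∀ x y, dist x y = 1 → c x ≠ c y := by
  set K : ℕ := ⌈40 / ε⌉₊ + 6 with hK
  have hK6 : 6 ≤ K := by omega
  have hKr : (6 : ℝ) ≤ K := by exact_mod_cast hK6
  have hKε : 40 + 6 * ε ≤ ε * K := by
    have h1 : 40 / ε ≤ (⌈40 / ε⌉₊ : ℝ) := Nat.le_ceil _
    have h2 : (K : ℝ) = (⌈40 / ε⌉₊ : ℝ) + 6 := by rw [hK]; push_cast; ring
    rw [div_le_iff₀ hε] at h1
    rw [h2]
    linarith
  have hc := c₀_le
  have hc' := c₀_ge
  set a : ℝ := 2 * ((c₀ + 2 / K) * (K + 2) + 2) / (K - 5) with ha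
  have hK5 : (0 : ℝ) < K - 5 := by linarith
  have hK0 : (0 : ℝ) < K := by linarith
  have ha0 : 0 ≤ a := by
    have : 0 < c₀ + 2 / K := by positivity
    positivity
  have hab : a < 3 * √3 / 2 + ε := by
    rw [← two_c₀, ha, div_lt_iff₀ hK5]
    have h1 : (2 : ℝ) / K * (K + 2) ≤ 3 := by
      rw [div_mul_eq_mul_div, div_le_iff₀ hK0]
      linarith
    nlinarith
  have hb : 1 < 3 * √3 / 2 + ε := by
    rw [← two_c₀]
    linarith
  filter_upwards [eventually_bound (C := 40 * (K + 2) * (K + 1)) ha0 hab hb,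
    eventually_ge_atTop 1] with n hn hn1
  obtain ⟨j, hj, c, hc2⟩ := colouring_bound (n := n) (K := K) (J := K) hn1 hK6 (by omega)
  exact ⟨j, hj.trans hn, c, hc2⟩

/-- The bound with a polynomial factor. -/
theorem poly_colouring : ∃ C : ℝ, ∀ n : ℕ, 1 ≤ n → ∃ j : ℕ,
    (j : ℝ) ≤ C * n ^ 4 * (3 * √3 / 2) ^ n ∧
      ∃ c : EuclideanSpace ℝ (Fin n) → Fin j, ∀ x y, dist x y = 1 → c x ≠ c y := by
  have hc := c₀_le
  have hc' := c₀_ge
  set C₁ : ℝ := 1 + 40 * 8 * 5 * (2 * ((c₀ + 2 / 4) * 8 + 2)) ^ 5 with hC₁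
  set C₂ : ℝ := 1 + 160 * Real.exp 72 with hC₂
  have hQ1 : 1 ≤ 2 * ((c₀ + 2 / 4) * 8 + 2) := by linarith
  have hC₁0 : 0 ≤ C₁ := by positivity
  have hC₂0 : 0 ≤ C₂ := by positivity
  refine ⟨C₁ + C₂, fun n hn => ?_⟩
  have hn1 : (1 : ℝ) ≤ n := by exact_mod_cast hn
  have hb1 : 1 ≤ 3 * √3 / 2 := by
    rw [← two_c₀]
    linarith
  have hn4 : (1 : ℝ) ≤ (n : ℝ) ^ 4 := one_le_pow₀ hn1
  have hn2 : (1 : ℝ) ≤ (n : ℝ) ^ 2 := one_le_pow₀ hn1
  have hn24 : (n : ℝ) ^ 2 ≤ (n : ℝ) ^ 4 := pow_le_pow_right₀ hn1 (by norm_num)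
  have hbn : 1 ≤ (3 * √3 / 2) ^ n := one_le_pow₀ hb1
  rcases Nat.lt_or_ge n 6 with h6 | h6
  · obtain ⟨j, hj, c, hc2⟩ := colouring_bound (n := n) (K := 6) (J := 4) hn le_rfl le_rfl
    refine ⟨j, hj.trans ?_, c, hc2⟩
    have e : (2 * ((c₀ + 2 / (4 : ℕ)) * ((6 : ℕ) + 2) + 2) / ((6 : ℕ) - 5) : ℝ)
        = 2 * ((c₀ + 2 / 4) * 8 + 2) := by
      push_cast
      ring
    rw [e]
    have h1 : (2 * ((c₀ + 2 / 4) * 8 + 2)) ^ n ≤ (2 * ((c₀ + 2 / 4) * 8 + 2)) ^ 5 :=
      pow_le_pow_right₀ hQ1 (by omega)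
    have h2 : (1 : ℝ) + 40 * ((6 : ℕ) + 2) * ((4 : ℕ) + 1) * n ^ 2
        * (2 * ((c₀ + 2 / 4) * 8 + 2)) ^ n ≤ C₁ * n ^ 4 := by
      rw [hC₁]
      push_cast
      calc (1 : ℝ) + 40 * (6 + 2) * (4 + 1) * n ^ 2 * (2 * ((c₀ + 2 / 4) * 8 + 2)) ^ n
          ≤ 1 * n ^ 4 + 40 * (6 + 2) * (4 + 1) * n ^ 4 * (2 * ((c₀ + 2 / 4) * 8 + 2)) ^ 5 := by
            have : (0 : ℝ) ≤ (2 * ((c₀ + 2 / 4) * 8 + 2)) ^ n := by positivity
            gcongr
            linarith
        _ = (1 + 40 * 8 * 5 * (2 * ((c₀ + 2 / 4) * 8 + 2)) ^ 5) * n ^ 4 := by ring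
    calc _ ≤ C₁ * n ^ 4 := h2
      _ ≤ (C₁ + C₂) * n ^ 4 := by
          gcongr
          linarith
      _ = (C₁ + C₂) * n ^ 4 * 1 := (mul_one _).symm
      _ ≤ (C₁ + C₂) * n ^ 4 * (3 * √3 / 2) ^ n := by gcongr
  · obtain ⟨j, hj, c, hc2⟩ := colouring_bound (n := n) (K := n) (J := n) hn h6 (by omega)
    refine ⟨j, hj.trans ?_, c, hc2⟩
    have hn6 : (6 : ℝ) ≤ n := by exact_mod_cast h6
    have hn0 : (0 : ℝ) < n := by linarith
    have hn5 : (0 : ℝ) < n - 5 := by linarith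
    have h1 : 2 * ((c₀ + 2 / n) * (n + 2) + 2) / (n - 5) ≤ (2 * c₀) * (1 + 12 / (n - 5)) := by
      have e1 : (1 + 12 / ((n : ℝ) - 5)) = (n + 7) / (n - 5) := by
        field_simp
        ring
      rw [e1, mul_div_assoc', div_le_div_iff_of_pos_right hn5]
      have h2 : (2 : ℝ) / n * (n + 2) ≤ 3 := by
        rw [div_mul_eq_mul_div, div_le_iff₀ hn0]
        linarith
      nlinarith
    have h0 : 0 ≤ 2 * ((c₀ + 2 / n) * (n + 2) + 2) / ((n : ℝ) - 5) := by
      have : 0 < c₀ + 2 / n := by positivity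
      positivity
    have h3 : (1 + 12 / ((n : ℝ) - 5)) ^ n ≤ Real.exp 72 := by
      have h4 : 1 + 12 / ((n : ℝ) - 5) ≤ Real.exp (12 / (n - 5)) := by
        have := Real.add_one_le_exp (12 / ((n : ℝ) - 5))
        linarith
      calc (1 + 12 / ((n : ℝ) - 5)) ^ n ≤ (Real.exp (12 / (n - 5))) ^ n :=
            pow_le_pow_left₀ (by positivity) h4 n
        _ = Real.exp (n * (12 / (n - 5))) := by rw [← Real.exp_nat_mul]
        _ ≤ Real.exp 72 := by
            apply Real.exp_le_exp.2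
            rw [mul_div_assoc', div_le_iff₀ hn5]
            linarith
    have h5 : (2 * ((c₀ + 2 / n) * (n + 2) + 2) / ((n : ℝ) - 5)) ^ n
        ≤ (3 * √3 / 2) ^ n * Real.exp 72 := by
      calc (2 * ((c₀ + 2 / n) * (n + 2) + 2) / ((n : ℝ) - 5)) ^ n
          ≤ ((2 * c₀) * (1 + 12 / (n - 5))) ^ n := pow_le_pow_left₀ h0 h1 n
        _ = (3 * √3 / 2) ^ n * (1 + 12 / (n - 5)) ^ n := by rw [mul_pow, two_c₀]
        _ ≤ _ := by gcongr
    have h6' : (40 : ℝ) * (n + 2) * (n + 1) * n ^ 2 ≤ 160 * n ^ 4 := by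
      have h7 : ((n : ℝ) + 2) * (n + 1) ≤ 4 * n ^ 2 := by nlinarith
      calc (40 : ℝ) * (n + 2) * (n + 1) * n ^ 2 = 40 * ((n + 2) * (n + 1)) * n ^ 2 := by ring
        _ ≤ 40 * (4 * (n : ℝ) ^ 2) * (n : ℝ) ^ 2 := by gcongr
        _ = 160 * (n : ℝ) ^ 4 := by ring
    calc (1 : ℝ) + 40 * (n + 2) * (n + 1) * n ^ 2
          * (2 * ((c₀ + 2 / n) * (n + 2) + 2) / (n - 5)) ^ n
        ≤ n ^ 4 * (3 * √3 / 2) ^ n + 160 * n ^ 4 * ((3 * √3 / 2) ^ n * Real.exp 72) := by
          apply add_le_add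
          · exact one_le_mul_of_one_le_of_one_le hn4 hbn
          · exact mul_le_mul h6' h5 (pow_nonneg h0 n) (by positivity)
      _ = C₂ * n ^ 4 * (3 * √3 / 2) ^ n := by
          rw [hC₂]
          ring
      _ ≤ (C₁ + C₂) * n ^ 4 * (3 * √3 / 2) ^ n := by
          gcongr
          linarith

end Pool.Agent.Lib.MP_d0bb7d_co.Up
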